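import Pool.Agent.Lib.MP_5205a5_lc.Defs
import Pool.Agent.Shared.Oracle.RE

/-!
The finite-cofinite algebra, and the reductions between the relation, the atoms and `G` in an
arbitrary computable copy.
-/

namespace Pool.Agent.Lib.MP_5205a5_lc

open Pool.Agent.Shared.Oracle

/-- The algebra of finite and cofinite sets of naturals. -/
def FC : BooleanSubalgebra (Set ℕ) where
  carrier := {s | s.Finite ∨ sᶜ.Finite}
  supClosed' := by
    rintro s (hs | hs) t (ht | ht)
    · exact Or.inl (hs.union ht)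
    · exact Or.inr (ht.subset (Set.compl_subset_compl.2 Set.subset_union_right))
    · exact Or.inr (hs.subset (Set.compl_subset_compl.2 Set.subset_union_left))
    · exact Or.inr (hs.subset (Set.compl_subset_compl.2 Set.subset_union_left))
  infClosed' := by
    rintro s (hs | hs) t (ht | ht)
    · exact Or.inl (hs.subset Set.inter_subset_left)
    · exact Or.inl (hs.subset Set.inter_subset_left)
    · exact Or.inl (ht.subset Set.inter_subset_right)
    · exact Or.inr ((hs.union ht).subset (Set.compl_inter s t).subset)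
  compl_mem' := by
    rintro s (hs | hs)
    · exact Or.inr (by rwa [compl_compl])
    · exact Or.inl hs
  bot_mem' := Or.inl Set.finite_empty

/-- A finite element. -/
def fin (s : Finset ℕ) : FC := ⟨(s : Set ℕ), Or.inl s.finite_toSet⟩

theorem fin_inj {s t : Finset ℕ} (h : fin s = fin t) : s = t :=
  Finset.coe_injective (congrArg Subtype.val h)

theorem fin_empty : fin ∅ = ⊥ := Subtype.ext (by simp [fin])

theorem fin_sup (s t : Finset ℕ) : fin s ⊔ fin t = fin (s ∪ t) := Subtype.ext (by simp [fin])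

theorem fin_inf (s t : Finset ℕ) : fin s ⊓ fin t = fin (s ∩ t) := Subtype.ext (by simp [fin])

theorem sing_inf_iff (t : ℕ) (a : FC) : fin {t} ⊓ a = fin {t} ↔ t ∈ a.1 := by
  rw [Subtype.ext_iff]
  simp [fin]

theorem compl_fin_ne (s t : Finset ℕ) : (fin s)ᶜ ≠ fin t := by
  intro h
  have h1 : (s : Set ℕ)ᶜ = t := congrArg Subtype.val h
  exact Set.infinite_of_finite_compl (s := (s : Set ℕ)) (h1 ▸ t.finite_toSet) s.finite_toSet

theorem fin_or_cofin (a : FC) : (∃ s, a = fin s) ∨ ∃ s, aᶜ = fin s := by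
  rcases a.2 with h | h
  · exact Or.inl ⟨h.toFinset, Subtype.ext (by simp [fin])⟩
  · exact Or.inr ⟨h.toFinset, Subtype.ext (by simp [fin])⟩

open Classical in
/-- The indicator of a set, with Boolean values. -/
noncomputable def ind (S : Set ℕ) : ℕ → Bool := fun n => decide (n ∈ S)

theorem ind_iff {S : Set ℕ} {n : ℕ} : ind S n = true ↔ n ∈ S := by simp [ind]

theorem chi_eq (S : Set ℕ) : chi S = orc (ind S) := by
  funext n
  by_cases h : n ∈ S <;> simp [chi, orc, ind, h]

/-- The atoms. -/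
def atoms : Set FC := Set.range fun t => fin {t}

/-- The set of sizes that codes `G`. -/
def Y (G : ℕ → Bool) (c : ℕ) : Bool :=
  decide (c = 1 ∨ c = 2) || (decide (4 ≤ c ∧ c % 2 = 0) && G ((c - 4) / 2))

/-- The relation. -/
def Rel (G : ℕ → Bool) : Set FC := {a | ∃ s : Finset ℕ, a = fin s ∧ Y G s.card = true}

theorem fin_mem_Rel {G : ℕ → Bool} {s : Finset ℕ} : fin s ∈ Rel G ↔ Y G s.card = true :=
  ⟨fun ⟨_, e, h⟩ => fin_inj e ▸ h, fun h => ⟨s, rfl, h⟩⟩

section Copy

variable {ν : FC → ℕ} {O : Set (ℕ →. ℕ)}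

/-- The join and the number of the atoms below `x` with code less than `k`. -/
def acc (A : ℕ → Bool) (fi fs : ℕ → ℕ → ℕ) (z x k : ℕ) : ℕ × ℕ :=
  Nat.rec (z, 0) (fun y p => cond (A y && decide (fi y x = y)) (fs y p.1, p.2 + 1) p) k

theorem acc_spec (hν : Function.Injective ν) {fi fs : ℕ → ℕ → ℕ}
    (hi : ∀ a b, ν (a ⊓ b) = fi (ν a) (ν b)) (hs : ∀ a b, ν (a ⊔ b) = fs (ν a) (ν b))
    (a : FC) (k : ℕ) : ∃ s : Finset ℕ, (∀ t, t ∈ s ↔ t ∈ a.1 ∧ ν (fin {t}) < k) ∧
      acc (ind (ν '' atoms)) fi fs (ν ⊥) (ν a) k = (ν (fin s), s.card) := by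
  induction k with
  | zero => exact ⟨∅, by simp, by rw [fin_empty]; rfl⟩
  | succ k ih =>
    obtain ⟨s, h1, h2⟩ := ih
    have hsucc : acc (ind (ν '' atoms)) fi fs (ν ⊥) (ν a) (k + 1) =
        cond (ind (ν '' atoms) k && decide (fi k (ν a) = k)) (fs k (ν (fin s)), s.card + 1)
          (ν (fin s), s.card) := by
      have : acc (ind (ν '' atoms)) fi fs (ν ⊥) (ν a) (k + 1) =
        cond (ind (ν '' atoms) k && decide (fi k (ν a) = k))
          (fs k (acc (ind (ν '' atoms)) fi fs (ν ⊥) (ν a) k).1,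
            (acc (ind (ν '' atoms)) fi fs (ν ⊥) (ν a) k).2 + 1)
          (acc (ind (ν '' atoms)) fi fs (ν ⊥) (ν a) k) := rfl
      rw [this, h2]
    rw [hsucc]
    by_cases hc : ∃ t ∈ a.1, ν (fin {t}) = k
    · obtain ⟨t, ht, rfl⟩ := hc
      have e1 : ind (ν '' atoms) (ν (fin {t})) = true := ind_iff.2 ⟨_, ⟨t, rfl⟩, rfl⟩
      have e2 : fi (ν (fin {t})) (ν a) = ν (fin {t}) := by
        rw [← hi, (sing_inf_iff t a).2 ht]
      have e3 : t ∉ s := fun h => lt_irrefl _ ((h1 t).1 h).2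
      refine ⟨insert t s, fun u => ?_, ?_⟩
      · rw [Finset.mem_insert, h1, Nat.lt_succ_iff_lt_or_eq]
        constructor
        · rintro (rfl | h)
          · exact ⟨ht, Or.inr rfl⟩
          · exact ⟨h.1, Or.inl h.2⟩
        · rintro ⟨h, h' | h'⟩
          · exact Or.inr ⟨h, h'⟩
          · exact Or.inl (Finset.singleton_injective (fin_inj (hν h')))
      · rw [e1, e2, Finset.card_insert_of_notMem e3, ← hs, fin_sup]
        simp
    · have e : (ind (ν '' atoms) k && decide (fi k (ν a) = k)) = false := by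
        rw [Bool.eq_false_iff]
        intro h
        simp only [Bool.and_eq_true, ind_iff, decide_eq_true_eq] at h
        obtain ⟨⟨_, ⟨t, rfl⟩, rfl⟩, h⟩ := h
        rw [← hi] at h
        exact hc ⟨t, (sing_inf_iff t a).1 (hν h), rfl⟩
      refine ⟨s, fun u => ?_, by rw [e]; rfl⟩
      rw [h1, Nat.lt_succ_iff_lt_or_eq]
      constructor
      · rintro ⟨h, h'⟩; exact ⟨h, Or.inl h'⟩
      · rintro ⟨h, h' | h'⟩
        · exact ⟨h, h'⟩
        · exact absurd ⟨u, h, h'⟩ hc

theorem cin_acc {A : ℕ → Bool} {fi fs : ℕ → ℕ → ℕ} (hA : ComputableIn O A) (hi : Computable₂ fi)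
    (hs : Computable₂ fs) (z : ℕ) : ComputableIn₂ O (acc A fi fs z) := by
  have h1 : ComputableIn O fun r : (ℕ × ℕ) × ℕ × ℕ × ℕ => A r.2.1 :=
    cin_comp (f := A) hA (Primrec.fst.comp Primrec.snd).computableIn
  have h2 : Computable fun r : (ℕ × ℕ) × ℕ × ℕ × ℕ => fi r.2.1 r.1.1 :=
    hi.comp (Computable.fst.comp Computable.snd) (Computable.fst.comp Computable.fst)
  have h3 : Computable fun r : (ℕ × ℕ) × ℕ × ℕ × ℕ => decide (fi r.2.1 r.1.1 = r.2.1) := by
    have := Primrec.eq.decide.to_comp.comp h2 (Computable.fst.comp Computable.snd)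
    exact this
  have h4 : Computable fun r : (ℕ × ℕ) × ℕ × ℕ × ℕ => (fs r.2.1 r.2.2.1, r.2.2.2 + 1) :=
    (hs.comp (Computable.fst.comp Computable.snd)
      (Computable.fst.comp (Computable.snd.comp Computable.snd))).pair
      (Computable.succ.comp (Computable.snd.comp (Computable.snd.comp Computable.snd)))
  have h5 : ComputableIn O fun r : (ℕ × ℕ) × ℕ × ℕ × ℕ =>
      cond (A r.2.1 && decide (fi r.2.1 r.1.1 = r.2.1)) (fs r.2.1 r.2.2.1, r.2.2.2 + 1) r.2.2 :=
    cin_cond (cin_comp₂ (f := and) Primrec.and.computableIn₂ h1 h3.computableIn) h4.computableIn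
      (Primrec.snd.comp Primrec.snd).computableIn
  have h6 := cin_nat_rec (O := O) (f := fun q : ℕ × ℕ => q.2) (g := fun _ => (z, 0))
    (h := fun (q : ℕ × ℕ) (r : ℕ × ℕ × ℕ) =>
      cond (A r.1 && decide (fi r.1 q.1 = r.1)) (fs r.1 r.2.1, r.2.2 + 1) r.2)
    ComputableIn.snd (ComputableIn.const _) h5
  exact h6

theorem exists_size (hν : IsComputableCopy ν) (hA : ComputableIn O (ind (ν '' atoms))) :
    ∃ sz : ℕ → ℕ, ComputableIn O sz ∧ (∀ s, sz (ν (fin s)) = s.card + 1) ∧
      ∀ x, (∀ s, x ≠ ν (fin s)) → sz x = 0 := by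
  classical
  obtain ⟨hinj, hdom, ⟨fi, hfi, hi⟩, ⟨fs, hfs, hs⟩, ⟨fc, hfc, hc⟩⟩ := hν
  set ac := acc (ind (ν '' atoms)) fi fs (ν ⊥) with hac
  have hacc : ComputableIn₂ O ac := cin_acc hA hfi hfs _
  have hfull : ∀ s, ∃ k, (ac (ν (fin s)) k).1 = ν (fin s) := by
    intro s
    obtain ⟨s', h1, h2⟩ := acc_spec hinj hi hs (fin s) ((s.sup fun t => ν (fin {t})) + 1)
    refine ⟨(s.sup fun t => ν (fin {t})) + 1, ?_⟩
    rw [hac, h2]
    have : s' = s := by
      ext t
      rw [h1]
      exact ⟨fun h => h.1, fun h =>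
        ⟨h, Nat.lt_succ_of_le (Finset.le_sup (f := fun t => ν (fin {t})) h)⟩⟩
    rw [this]
  let Q : ℕ → ℕ → Bool := fun x k => !(decide (x ∈ Set.range ν)) ||
    (decide ((ac x k).1 = x) || decide ((ac (fc x) k).1 = fc x))
  have hex : ∀ x, ∃ k, Q x k = true := by
    intro x
    by_cases hx : x ∈ Set.range ν
    · obtain ⟨a, rfl⟩ := hx
      rcases fin_or_cofin a with ⟨s, rfl⟩ | ⟨s, h⟩
      · obtain ⟨k, hk⟩ := hfull s
        exact ⟨k, by simp [Q, hk]⟩
      · obtain ⟨k, hk⟩ := hfull s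
        exact ⟨k, by simp [Q, ← hc, h, hk]⟩
    · exact ⟨0, by simp only [Q, hx]; simp⟩
  have e1 : ComputableIn O fun r : ℕ × ℕ => decide ((ac r.1 r.2).1 = r.1) :=
    cin_comp₂ (f := fun a b : ℕ => decide (a = b)) Primrec.eq.decide.computableIn₂
      (cin_comp (f := Prod.fst) ComputableIn.fst hacc) ComputableIn.fst
  have e2 : ComputableIn O fun r : ℕ × ℕ => decide ((ac (fc r.1) r.2).1 = fc r.1) :=
    cin_comp (f := fun r : ℕ × ℕ => decide ((ac r.1 r.2).1 = r.1))
      (g := fun r : ℕ × ℕ => (fc r.1, r.2)) e1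
      ((hfc.comp Computable.fst).pair Computable.snd).computableIn
  have e3 : Computable fun r : ℕ × ℕ => decide (r.1 ∈ Set.range ν) :=
    hdom.decide.comp Computable.fst
  have hQ : ComputableIn₂ O Q :=
    cin_comp₂ (f := or) Primrec.or.computableIn₂ (Primrec.not.to_comp.comp e3).computableIn
      (cin_comp₂ (f := or) Primrec.or.computableIn₂ e1 e2)
  have e4 : ComputableIn O fun r : ℕ × ℕ => cond (decide (r.1 ∈ Set.range ν) &&
      decide ((ac r.1 r.2).1 = r.1)) ((ac r.1 r.2).2 + 1) 0 :=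
    cin_cond (cin_comp₂ (f := and) Primrec.and.computableIn₂ e3.computableIn e1)
      (cin_comp (f := fun p : ℕ × ℕ => p.2 + 1) (Primrec.succ.comp Primrec.snd).computableIn hacc)
      (ComputableIn.const 0)
  have e5 := cin_comp e4 (cin_pair ComputableIn.id (cin_find hQ hex))
  refine ⟨_, e5, fun s => ?_, fun x hx => ?_⟩
  · have h1 := Nat.find_spec (hex (ν (fin s)))
    simp only [id]
    generalize Nat.find (hex (ν (fin s))) = k at h1 ⊢
    obtain ⟨s1, -, a1⟩ := acc_spec hinj hi hs (fin s) k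
    obtain ⟨s2, -, a2⟩ := acc_spec hinj hi hs (fin s)ᶜ k
    rw [← hac] at a1 a2
    have a3 : ν (fin s2) ≠ ν (fin s)ᶜ := fun e => compl_fin_ne s s2 (hinj e).symm
    simp only [Q, ← hc, a1, a2, a3, Set.mem_range_self, decide_true, Bool.not_true, decide_false,
      Bool.or_false, Bool.false_or, decide_eq_true_eq] at h1
    simp [a1, fin_inj (hinj h1)]
  · simp only [id]
    generalize Nat.find (hex x) = k
    by_cases hd : x ∈ Set.range ν
    · obtain ⟨a, rfl⟩ := hd
      obtain ⟨s1, -, a1⟩ := acc_spec hinj hi hs a k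
      rw [← hac] at a1
      simp [a1, (hx s1).symm]
    · simp only [hd]; simp

theorem cin_Y {G : ℕ → Bool} (hG : ComputableIn O G) : ComputableIn O (Y G) := by
  have h1 : PrimrecPred fun c : ℕ => c = 1 ∨ c = 2 :=
    (Primrec.eq.comp Primrec.id (Primrec.const 1)).or (Primrec.eq.comp Primrec.id (Primrec.const 2))
  have h2 : PrimrecPred fun c : ℕ => 4 ≤ c ∧ c % 2 = 0 :=
    (Primrec.nat_le.comp (Primrec.const 4) Primrec.id).and
      (Primrec.eq.comp (Primrec.nat_mod.comp Primrec.id (Primrec.const 2)) (Primrec.const 0))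
  have h3 : Primrec fun c : ℕ => (c - 4) / 2 :=
    Primrec.nat_div.comp (Primrec.nat_sub.comp Primrec.id (Primrec.const 4)) (Primrec.const 2)
  exact cin_comp₂ (f := or) Primrec.or.computableIn₂ h1.decide.computableIn
    (cin_comp₂ (f := and) Primrec.and.computableIn₂ h2.decide.computableIn
      (cin_comp (f := G) hG h3.computableIn))

theorem rel_le (hν : IsComputableCopy ν) {G : ℕ → Bool} (hA : ComputableIn O (ind (ν '' atoms)))
    (hG : ComputableIn O G) : ComputableIn O (ind (ν '' Rel G)) := by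
  obtain ⟨sz, h1, h2, h3⟩ := exists_size hν hA
  have h4 : ComputableIn O fun x => Y G (sz x - 1) :=
    cin_comp (f := Y G) (cin_Y hG) (cin_comp (f := fun n : ℕ => n - 1)
      (Primrec.nat_sub.comp Primrec.id (Primrec.const 1)).computableIn h1)
  refine cin_of_eq h4 fun x => ?_
  rw [Bool.eq_iff_iff, ind_iff]
  by_cases hx : ∃ s, x = ν (fin s)
  · obtain ⟨s, rfl⟩ := hx
    rw [h2, hν.1.mem_set_image, fin_mem_Rel, Nat.add_sub_cancel]
  · push Not at hx
    rw [h3 x hx]
    constructor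
    · intro h; simp [Y] at h
    · rintro ⟨_, ⟨s, rfl, -⟩, e⟩
      exact absurd e.symm (hx s)

theorem atoms_le (hν : IsComputableCopy ν) {G : ℕ → Bool}
    (hR : ComputableIn O (ind (ν '' Rel G))) : ComputableIn O (ind (ν '' atoms)) := by
  obtain ⟨hinj, -, ⟨fi, hfi, hi⟩, ⟨fs, hfs, hs⟩, -⟩ := hν
  have h1 : Primrec fun x : ℕ => decide (x = ν (fin {0})) :=
    (Primrec.eq.comp Primrec.id (Primrec.const _)).decide
  have h2 : Computable fun x : ℕ => decide (fi (ν (fin {0})) x = ν ⊥) := by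
    have := Primrec.eq.decide.to_comp.comp (hfi.comp (Computable.const (ν (fin {0})))
      Computable.id) (Computable.const (ν ⊥))
    exact this
  have h3 : ComputableIn O fun x : ℕ => ind (ν '' Rel G) (fs (ν (fin {0})) x) :=
    cin_comp (f := ind (ν '' Rel G)) hR
      (hfs.comp (Computable.const (ν (fin {0}))) Computable.id).computableIn
  have h4 := cin_comp₂ (f := or) Primrec.or.computableIn₂ h1.computableIn
    (cin_comp₂ (f := and) Primrec.and.computableIn₂ hR
      (cin_comp₂ (f := and) Primrec.and.computableIn₂ h2.computableIn h3))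
  refine cin_of_eq h4 fun x => ?_
  rw [Bool.eq_iff_iff]
  simp only [Bool.or_eq_true, decide_eq_true_eq, Bool.and_eq_true, ind_iff]
  constructor
  · rintro (rfl | ⟨⟨_, ⟨s, rfl, a1⟩, rfl⟩, a2, a3⟩)
    · exact ⟨_, ⟨0, rfl⟩, rfl⟩
    · rw [← hi, fin_inf, ← fin_empty] at a2
      have a4 : 0 ∉ s := fun h0 => by
        have h7 := fin_inj (hinj a2)
        rw [Finset.singleton_inter_of_mem h0] at h7
        simp at h7
      rw [← hs, fin_sup, hinj.mem_set_image, fin_mem_Rel, ← Finset.insert_eq,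
        Finset.card_insert_of_notMem a4] at a3
      have a5 : s.card = 1 := by
        simp only [Y, Bool.or_eq_true, decide_eq_true_eq, Bool.and_eq_true] at a1 a3
        omega
      obtain ⟨t, rfl⟩ := Finset.card_eq_one.1 a5
      exact ⟨_, ⟨t, rfl⟩, rfl⟩
  · rintro ⟨_, ⟨t, rfl⟩, rfl⟩
    by_cases ht : t = 0
    · left; rw [ht]
    · right
      have a4 : 0 ∉ ({t} : Finset ℕ) := by simpa using Ne.symm ht
      refine ⟨⟨_, fin_mem_Rel.2 (by simp [Y]), rfl⟩, ?_, ?_⟩
      · rw [← hi, fin_inf, ← fin_empty, Finset.singleton_inter_of_notMem a4]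
      · rw [← hs, fin_sup, hinj.mem_set_image, fin_mem_Rel, ← Finset.insert_eq,
          Finset.card_insert_of_notMem a4]
        simp [Y]

theorem code_le (hν : IsComputableCopy ν) {G : ℕ → Bool}
    (hR : ComputableIn O (ind (ν '' Rel G))) : ComputableIn O G := by
  obtain ⟨sz, h1, h2, h3⟩ := exists_size hν (atoms_le hν hR)
  have hex : ∀ n, ∃ x, decide (sz x = 2 * n + 5) = true := fun n =>
    ⟨ν (fin (Finset.range (2 * n + 4))), by simp [h2]⟩
  have h4 : ComputableIn₂ O fun n x => decide (sz x = 2 * n + 5) :=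
    cin_comp₂ (f := fun a b : ℕ => decide (a = b)) Primrec.eq.decide.computableIn₂
      (cin_comp (f := sz) h1 ComputableIn.snd)
      (Primrec.nat_add.comp (Primrec.nat_double.comp Primrec.fst) (Primrec.const 5)).computableIn
  refine cin_of_eq (cin_comp (f := ind (ν '' Rel G)) hR (cin_find h4 hex)) fun n => ?_
  have h5 := Nat.find_spec (hex n)
  generalize Nat.find (hex n) = x at h5 ⊢
  rw [decide_eq_true_eq] at h5
  by_cases hx : ∃ s, x = ν (fin s)
  · obtain ⟨s, rfl⟩ := hx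
    rw [h2] at h5
    have h6 : s.card = 2 * n + 4 := by omega
    rw [Bool.eq_iff_iff, ind_iff, hν.1.mem_set_image, fin_mem_Rel, h6]
    simp [Y]
  · push Not at hx
    rw [h3 x hx] at h5
    omega

theorem countable_atoms :
    {X : ℕ → Bool | ∃ ν : FC → ℕ, IsComputableCopy ν ∧ X = ind (ν '' atoms)}.Countable := by
  classical
  have h1 : ({f : ℕ → Bool | Computable f} ×ˢ {f : ℕ × ℕ → ℕ | Computable f} ×ˢ
      (Set.univ : Set ℕ)).Countable :=
    countable_computable.prod (countable_computable.prod Set.countable_univ)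
  refine (h1.image fun r => ind {x | r.1 x = true ∧ x ≠ r.2.2 ∧
    ∀ y, r.1 y = true → r.2.1 (y, x) = y → y = x ∨ y = r.2.2}).mono ?_
  rintro _ ⟨ν, ⟨hinj, hdom, ⟨fi, hfi, hi⟩, -, -⟩, rfl⟩
  refine ⟨(fun x => decide (x ∈ Set.range ν), fun p => fi p.1 p.2, ν ⊥),
    ⟨hdom.decide, hfi, trivial⟩, ?_⟩
  simp only [decide_eq_true_eq]
  congr 1
  ext x
  constructor
  · rintro ⟨⟨a, rfl⟩, h2, h3⟩
    have h4 : a.1.Nonempty := by
      rw [Set.nonempty_iff_ne_empty]
      exact fun e => h2 (congrArg ν (Subtype.ext e))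
    obtain ⟨t, ht⟩ := h4
    rcases h3 (ν (fin {t})) ⟨_, rfl⟩ (by rw [← hi, (sing_inf_iff t a).2 ht]) with h | h
    · exact ⟨_, ⟨t, rfl⟩, h⟩
    · rw [← fin_empty] at h
      simpa using fin_inj (hinj h)
  · rintro ⟨_, ⟨t, rfl⟩, rfl⟩
    refine ⟨⟨_, rfl⟩, fun h => ?_, ?_⟩
    · rw [← fin_empty] at h
      simpa using fin_inj (hinj h)
    · rintro _ ⟨b, rfl⟩ h
      rw [← hi] at h
      have h5 : b.1 ⊆ {t} := by
        have h6 := congrArg Subtype.val (hinj h)
        simpa [fin] using h6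
      rcases Set.subset_singleton_iff_eq.1 h5 with h7 | h7
      · exact Or.inr (congrArg ν (Subtype.ext h7))
      · exact Or.inl (congrArg ν (Subtype.ext (by simpa [fin] using h7)))

end Copy

end Pool.Agent.Lib.MP_5205a5_lc
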