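import Pool.Agent.Lib.MP_5205a5_lc.Algebra

/-!
Two computable copies of the finite-cofinite algebra: one with computable atoms and one with
noncomputable atoms.
-/

namespace Pool.Agent.Lib.MP_5205a5_lc

open Pool.Agent.Shared.Oracle

/-- The number whose binary digits below `N` are given by `f`. -/
def pack (f : ℕ → Bool) (N : ℕ) : ℕ := Nat.rec 0 (fun i a => cond (f i) (2 ^ i + a) a) N

theorem pack_succ (f : ℕ → Bool) (N : ℕ) :
    pack f (N + 1) = cond (f N) (2 ^ N + pack f N) (pack f N) := rfl

theorem testBit_pack (f : ℕ → Bool) (N : ℕ) :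
    ∀ i, (pack f N).testBit i = (decide (i < N) && f i) := by
  induction N with
  | zero => intro i; simp [pack]
  | succ N ih =>
    intro i
    have hlt : pack f N < 2 ^ N :=
      Nat.lt_pow_two_of_testBit _ fun j hj => by rw [ih]; simp [not_lt.2 hj]
    rw [pack_succ]
    rcases lt_trichotomy i N with h | rfl | h
    · cases f N
      · simp [ih, h, h.trans (Nat.lt_succ_self N)]
      · simp [Nat.testBit_two_pow_add_gt h, ih, h, h.trans (Nat.lt_succ_self N)]
    · cases hf : f i
      · simp [ih]
      · simp [Nat.testBit_two_pow_add_eq, ih]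
    · have h1 : 2 ^ N + pack f N < 2 ^ i :=
        calc 2 ^ N + pack f N < 2 ^ N + 2 ^ N := by omega
          _ = 2 ^ (N + 1) := by ring
          _ ≤ 2 ^ i := Nat.pow_le_pow_right (by norm_num) h
      have h2 : ¬ i < N + 1 := by omega
      cases f N
      · simp [ih, h2, not_lt.2 h.le]
      · simp [Nat.testBit_lt_two_pow h1, h2]

theorem prim_pack {α : Type} [Primcodable α] {f : α → ℕ → Bool} {N : α → ℕ} (hf : Primrec₂ f)
    (hN : Primrec N) : Primrec fun a => pack (f a) (N a) := by
  have h1 : Primrec fun r : α × ℕ × ℕ => cond (f r.1 r.2.1) (2 ^ r.2.1 + r.2.2) r.2.2 :=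
    Primrec.cond (hf.comp Primrec.fst (Primrec.fst.comp Primrec.snd))
      (Primrec.nat_add.comp (prim_pow.comp (Primrec.const 2) (Primrec.fst.comp Primrec.snd))
        (Primrec.snd.comp Primrec.snd)) (Primrec.snd.comp Primrec.snd)
  have h2 := Primrec.nat_rec' (g := fun _ => 0)
    (h := fun (a : α) (r : ℕ × ℕ) => cond (f a r.1) (2 ^ r.1 + r.2) r.2) hN (Primrec.const 0) h1
  exact h2

theorem testBit_of_le {x i : ℕ} (h : x ≤ i) : x.testBit i = false :=
  Nat.testBit_lt_two_pow (h.trans_lt Nat.lt_two_pow_self)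

section Twist

variable (h : ℕ → Bool) (o : ℕ → ℕ)

/-- The finite part of the set with code `x`. -/
def fpart (x m : ℕ) : Bool := xor (x.testBit (m + 1)) (h m && x.testBit (o m + 1))

/-- Membership in the set with code `x`. -/
def memb (x m : ℕ) : Bool := xor (x.testBit 0) (fpart h o x m)

/-- The digits of the code of an intersection. -/
def ibit (x y i : ℕ) : Bool :=
  cond (decide (i = 0)) (x.testBit 0 && y.testBit 0)
    (xor (xor (memb h o x (i - 1) && memb h o y (i - 1)) (x.testBit 0 && y.testBit 0))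
      (h (i - 1) && xor (memb h o x (o (i - 1)) && memb h o y (o (i - 1)))
        (x.testBit 0 && y.testBit 0)))

/-- The code of an intersection. -/
def icode (x y : ℕ) : ℕ := pack (ibit h o x y) (x + y)

/-- The code of a complement. -/
def ccode (x : ℕ) : ℕ := pack (fun i => xor (x.testBit i) (decide (i = 0))) (x + 1)

variable {h o}

theorem testBit_ccode (x i : ℕ) : (ccode x).testBit i = xor (x.testBit i) (decide (i = 0)) := by
  rw [ccode, testBit_pack]
  by_cases hi : i < x + 1
  · simp [hi]
  · have : i ≠ 0 := by omega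
    simp [hi, this, testBit_of_le (show x ≤ i by omega)]

theorem testBit_icode (H1 : ∀ m, h m = true → h (o m) = false) (x y i : ℕ) :
    (icode h o x y).testBit i = ibit h o x y i := by
  rw [icode, testBit_pack]
  by_cases hi : i < x + y
  · simp [hi]
  · rcases i with - | m
    · obtain rfl : x = 0 := by omega
      simp [ibit]
    · have e1 := testBit_of_le (show x ≤ m + 1 by omega)
      have e2 := testBit_of_le (show y ≤ m + 1 by omega)
      cases hm : h m
      · simp [hi, ibit, memb, fpart, e1, e2, hm]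
      · simp [hi, ibit, memb, fpart, e1, e2, hm, H1 m hm]

theorem memb_ccode (x m : ℕ) : memb h o (ccode x) m = !(memb h o x m) := by
  simp only [memb, fpart, testBit_ccode]
  simp

theorem memb_icode (H1 : ∀ m, h m = true → h (o m) = false) (x y m : ℕ) :
    memb h o (icode h o x y) m = (memb h o x m && memb h o y m) := by
  have e : ∀ m, (icode h o x y).testBit (m + 1) =
      xor (xor (memb h o x m && memb h o y m) (x.testBit 0 && y.testBit 0))
      (h m && xor (memb h o x (o m) && memb h o y (o m)) (x.testBit 0 && y.testBit 0)) := by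
    intro m; rw [testBit_icode H1]; simp [ibit]
  have e0 : (icode h o x y).testBit 0 = (x.testBit 0 && y.testBit 0) := by
    rw [testBit_icode H1]; simp [ibit]
  rw [memb, fpart, e0, e, e]
  generalize (x.testBit 0 && y.testBit 0) = g
  generalize (memb h o x m && memb h o y m) = u
  generalize (memb h o x (o m) && memb h o y (o m)) = v
  cases hm : h m
  · cases g <;> cases u <;> simp
  · rw [H1 m hm]
    cases g <;> cases u <;> cases v <;> simp

theorem fpart_finite (H2 : ∀ e, {m | h m = true ∧ o m = e}.Finite) (x : ℕ) :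
    {m | fpart h o x m = true}.Finite := by
  refine ((Set.finite_lt_nat x).union
    ((Set.finite_lt_nat x).biUnion fun e _ => H2 e)).subset fun m hm => ?_
  by_contra hcon
  simp only [Set.mem_union, Set.mem_ofPred_eq, Set.mem_iUnion, not_or, not_lt, not_exists,
    not_and] at hcon
  have e1 := testBit_of_le (show x ≤ m + 1 by omega)
  simp only [fpart, Set.mem_ofPred_eq, e1, Bool.false_xor, Bool.and_eq_true] at hm
  by_cases h3 : o m < x
  · exact hcon.2 (o m) h3 hm.1 rfl
  · rw [testBit_of_le (show x ≤ o m + 1 by omega)] at hm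
    simp at hm

/-- The set with code `x`. -/
def dec (H2 : ∀ e, {m | h m = true ∧ o m = e}.Finite) (x : ℕ) : FC :=
  ⟨{m | memb h o x m = true}, by
    have hf := fpart_finite H2 x
    cases hx : x.testBit 0
    · exact Or.inl (hf.subset fun m hm => by simpa [memb, hx] using hm)
    · exact Or.inr (hf.subset fun m hm => by simpa [memb, hx] using hm)⟩

theorem dec_injective (H1 : ∀ m, h m = true → h (o m) = false)
    (H2 : ∀ e, {m | h m = true ∧ o m = e}.Finite) : Function.Injective (dec H2) := by
  intro x y e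
  have e1 : ∀ m, memb h o x m = memb h o y m := by
    intro m
    have := Set.ext_iff.1 (congrArg Subtype.val e) m
    rw [Bool.eq_iff_iff]; exact this
  have e0 : x.testBit 0 = y.testBit 0 := by
    obtain ⟨m, hm⟩ := ((fpart_finite H2 x).union (fpart_finite H2 y)).exists_notMem
    simp only [Set.mem_union, Set.mem_ofPred_eq, not_or, Bool.not_eq_true] at hm
    have := e1 m
    rwa [memb, memb, hm.1, hm.2, Bool.xor_false, Bool.xor_false] at this
  have e2 : ∀ m, fpart h o x m = fpart h o y m := by
    intro m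
    have := e1 m
    rw [memb, memb, e0] at this
    simpa using this
  have e3 : ∀ m, h m = false → x.testBit (m + 1) = y.testBit (m + 1) := by
    intro m hm
    simpa only [fpart, hm, Bool.false_and, Bool.xor_false] using e2 m
  apply Nat.eq_of_testBit_eq
  rintro (- | m)
  · exact e0
  · cases hm : h m
    · exact e3 m hm
    · have := e2 m
      rw [fpart, fpart, e3 _ (H1 m hm)] at this
      simpa only [Bool.xor_left_inj] using this

theorem exists_code_of_finite (H1 : ∀ m, h m = true → h (o m) = false)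
    (H2 : ∀ e, {m | h m = true ∧ o m = e}.Finite) (s : Finset ℕ) :
    ∃ x, dec H2 x = fin s := by
  have hfin : ((s : Set ℕ) ∪ ⋃ e ∈ (s : Set ℕ), {m | h m = true ∧ o m = e}).Finite :=
    s.finite_toSet.union (s.finite_toSet.biUnion fun e _ => H2 e)
  obtain ⟨N, hN⟩ := hfin.bddAbove
  let f : ℕ → Bool := fun i => decide (i ≠ 0) &&
    xor (decide (i - 1 ∈ s)) (h (i - 1) && decide (o (i - 1) ∈ s))
  have e0 : (pack f (N + 2)).testBit 0 = false := by rw [testBit_pack]; simp [f]
  have e1 : ∀ m, (pack f (N + 2)).testBit (m + 1) =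
      xor (decide (m ∈ s)) (h m && decide (o m ∈ s)) := by
    intro m
    rw [testBit_pack]
    by_cases hm : m + 1 < N + 2
    · simp [f, hm]
    · have a1 : m ∉ s := fun a => hm (by have := hN (Or.inl a); omega)
      have a2 : ¬ (h m = true ∧ o m ∈ s) := fun a => hm (by
        have := hN (Or.inr (Set.mem_biUnion a.2 (show m ∈ {m' | h m' = true ∧ o m' = o m} from
          ⟨a.1, rfl⟩)))
        omega)
      simp only [hm, decide_false, Bool.false_and, a1, Bool.false_xor]
      symm
      simpa using a2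
  refine ⟨pack f (N + 2), Subtype.ext ?_⟩
  ext m
  simp only [dec, fin, memb, fpart, e0, e1, Set.mem_ofPred_eq, Finset.mem_coe]
  cases hm : h m
  · simp
  · simp [H1 m hm]

theorem dec_ccode (H2 : ∀ e, {m | h m = true ∧ o m = e}.Finite) (x : ℕ) :
    dec H2 (ccode x) = (dec H2 x)ᶜ := by
  apply Subtype.ext
  ext m
  simp [dec, memb_ccode]

theorem dec_icode (H1 : ∀ m, h m = true → h (o m) = false)
    (H2 : ∀ e, {m | h m = true ∧ o m = e}.Finite) (x y : ℕ) :
    dec H2 (icode h o x y) = dec H2 x ⊓ dec H2 y := by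
  apply Subtype.ext
  ext m
  simp [dec, memb_icode H1]

theorem dec_surjective (H1 : ∀ m, h m = true → h (o m) = false)
    (H2 : ∀ e, {m | h m = true ∧ o m = e}.Finite) : Function.Surjective (dec H2) := by
  intro a
  rcases fin_or_cofin a with ⟨s, rfl⟩ | ⟨s, hs⟩
  · exact exists_code_of_finite H1 H2 s
  · obtain ⟨x, hx⟩ := exists_code_of_finite H1 H2 s
    exact ⟨ccode x, by rw [dec_ccode, hx, ← hs, compl_compl]⟩

theorem prim_xor : Primrec₂ xor := Primrec.dom_bool₂ _

theorem prim_memb (hh : Primrec h) (ho : Primrec o) : Primrec₂ (memb h o) := by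
  have h1 : Primrec fun r : ℕ × ℕ => r.1.testBit 0 := prim_testBit.comp Primrec.fst (.const 0)
  have h2 : Primrec fun r : ℕ × ℕ => r.1.testBit (r.2 + 1) :=
    prim_testBit.comp Primrec.fst (Primrec.succ.comp Primrec.snd)
  have h3 : Primrec fun r : ℕ × ℕ => r.1.testBit (o r.2 + 1) :=
    prim_testBit.comp Primrec.fst (Primrec.succ.comp (ho.comp Primrec.snd))
  have h4 := prim_xor.comp h1 (prim_xor.comp h2 (Primrec.and.comp (hh.comp Primrec.snd) h3))
  exact h4

theorem prim_icode (hh : Primrec h) (ho : Primrec o) : Primrec₂ (icode h o) := by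
  have hm := prim_memb hh ho
  have hx : Primrec fun r : (ℕ × ℕ) × ℕ => r.1.1 := Primrec.fst.comp Primrec.fst
  have hy : Primrec fun r : (ℕ × ℕ) × ℕ => r.1.2 := Primrec.snd.comp Primrec.fst
  have hi : Primrec fun r : (ℕ × ℕ) × ℕ => r.2 - 1 := Primrec.nat_sub.comp Primrec.snd (.const 1)
  have h0 : Primrec fun r : (ℕ × ℕ) × ℕ => decide (r.2 = 0) :=
    (Primrec.eq.comp Primrec.snd (.const 0)).decide
  have h1 : Primrec fun r : (ℕ × ℕ) × ℕ => (r.1.1.testBit 0 && r.1.2.testBit 0) :=
    Primrec.and.comp (prim_testBit.comp hx (.const 0)) (prim_testBit.comp hy (.const 0))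
  have h2 : Primrec fun r : (ℕ × ℕ) × ℕ =>
      (memb h o r.1.1 (r.2 - 1) && memb h o r.1.2 (r.2 - 1)) :=
    Primrec.and.comp (hm.comp hx hi) (hm.comp hy hi)
  have h3 : Primrec fun r : (ℕ × ℕ) × ℕ =>
      (memb h o r.1.1 (o (r.2 - 1)) && memb h o r.1.2 (o (r.2 - 1))) :=
    Primrec.and.comp (hm.comp hx (ho.comp hi)) (hm.comp hy (ho.comp hi))
  have h4 := Primrec.cond h0 h1 (prim_xor.comp (prim_xor.comp h2 h1)
    (Primrec.and.comp (hh.comp hi) (prim_xor.comp h3 h1)))
  have h5 : Primrec₂ fun (r : ℕ × ℕ) (i : ℕ) => ibit h o r.1 r.2 i := h4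
  have h6 := prim_pack h5 (Primrec.nat_add.comp Primrec.fst Primrec.snd)
  exact h6

theorem prim_ccode : Primrec ccode := by
  have h1 : Primrec₂ fun x i : ℕ => xor (x.testBit i) (decide (i = 0)) :=
    prim_xor.comp prim_testBit (Primrec.eq.comp Primrec.snd (.const 0)).decide
  have h2 := prim_pack h1 Primrec.succ
  exact h2

theorem exists_copy (hh : Primrec h) (ho : Primrec o) (H1 : ∀ m, h m = true → h (o m) = false)
    (H2 : ∀ e, {m | h m = true ∧ o m = e}.Finite) :
    ∃ ν : FC → ℕ, IsComputableCopy ν ∧ ∀ x, x ∈ ν '' atoms ↔ dec H2 x ∈ atoms := by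
  let e : ℕ ≃ FC := Equiv.ofBijective (dec H2) ⟨dec_injective H1 H2, dec_surjective H1 H2⟩
  have he : ∀ x, e x = dec H2 x := fun _ => rfl
  have hi : ∀ a b, e.symm (a ⊓ b) = icode h o (e.symm a) (e.symm b) := by
    intro a b
    rw [Equiv.symm_apply_eq, he, dec_icode H1, ← he, ← he, e.apply_symm_apply, e.apply_symm_apply]
  have hc : ∀ a, e.symm aᶜ = ccode (e.symm a) := by
    intro a
    rw [Equiv.symm_apply_eq, he, dec_ccode, ← he, e.apply_symm_apply]
  refine ⟨e.symm, ⟨e.symm.injective, ?_, ⟨icode h o, (prim_icode hh ho).to_comp, hi⟩,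
    ⟨fun x y => ccode (icode h o (ccode x) (ccode y)), ?_, ?_⟩,
    ⟨ccode, prim_ccode.to_comp, hc⟩⟩, fun x => ?_⟩
  · exact ComputablePred.computable_iff.2 ⟨fun _ => true, Computable.const _, by
      funext n; simp⟩
  · exact (prim_ccode.comp ((prim_icode hh ho).comp (prim_ccode.comp Primrec.fst)
      (prim_ccode.comp Primrec.snd))).to_comp
  · intro a b
    simp only
    rw [← hc, ← hc, ← hi, ← hc, compl_inf, compl_compl, compl_compl]
  · rw [Equiv.image_symm_eq_preimage]
    rfl

end Twist

theorem exists_copy_computable :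
    ∃ ν : FC → ℕ, IsComputableCopy ν ∧ Computable (ind (ν '' atoms)) := by
  have H1 : ∀ m : ℕ, (fun _ => false) m = true → (fun _ => false) ((fun _ => 0) m) = false :=
    fun _ _ => rfl
  have H2 : ∀ e : ℕ, {m : ℕ | (fun _ => false) m = true ∧ (fun _ => 0) m = e}.Finite :=
    fun e => by simp
  obtain ⟨ν, hν, hA⟩ := exists_copy (Primrec.const false) (Primrec.const 0) H1 H2
  refine ⟨ν, hν, ?_⟩
  have h1 : PrimrecPred fun x : ℕ => ∃ m < x, x = 2 ^ (m + 1) :=
    prim_exists_lt (R := fun m x : ℕ => x = 2 ^ (m + 1)) Primrec.id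
      (Primrec.eq.comp Primrec.snd (prim_pow.comp (.const 2) (Primrec.succ.comp Primrec.fst)))
  have h2 : ∀ t, dec H2 (2 ^ (t + 1)) = fin {t} := by
    intro t
    apply Subtype.ext
    ext m
    simp only [dec, fin, memb, fpart, Nat.testBit_two_pow, Set.mem_ofPred_eq]
    by_cases c : m = t
    · simp [c]
    · simp [c, Ne.symm c]
  refine h1.decide.to_comp.of_eq fun x => ?_
  rw [Bool.eq_iff_iff, ind_iff, hA, decide_eq_true_eq]
  constructor
  · rintro ⟨m, -, rfl⟩
    exact ⟨m, (h2 m).symm⟩
  · rintro ⟨t, ht⟩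
    have h3 : x = 2 ^ (t + 1) := dec_injective H1 H2 (by rw [h2]; exact ht.symm)
    exact ⟨t, by rw [h3]; exact (Nat.lt_succ_self t).trans Nat.lt_two_pow_self, h3⟩

open Nat.Partrec Nat.Partrec.Code in
theorem exists_copy_noncomputable :
    ∃ ν : FC → ℕ, IsComputableCopy ν ∧ ¬ Computable (ind (ν '' atoms)) := by
  let ev : ℕ → ℕ → Bool := fun n t => (evaln t (Denumerable.ofNat Code n) 0).isSome
  have hev : Primrec₂ ev := Primrec.option_isSome.comp (primrec_evaln.comp
    ((Primrec.snd.pair ((Primrec.ofNat Code).comp Primrec.fst)).pair (.const 0)))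
  have hmono : ∀ n {s t}, s ≤ t → ev n s = true → ev n t = true := by
    intro n s t hst h
    obtain ⟨x, hx⟩ := Option.isSome_iff_exists.1 h
    exact Option.isSome_iff_exists.2 ⟨x, evaln_mono hst hx⟩
  let h : ℕ → Bool := fun m => decide (m % 2 = 1) &&
    (ev (m / 2).unpair.1 ((m / 2).unpair.2 + 1) && !ev (m / 2).unpair.1 (m / 2).unpair.2)
  let o : ℕ → ℕ := fun m => 2 * (m / 2).unpair.1
  have hu : Primrec fun m : ℕ => (m / 2).unpair :=
    Primrec.unpair.comp (Primrec.nat_div.comp Primrec.id (.const 2))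
  have hh : Primrec h := by
    have a1 : Primrec fun m : ℕ => decide (m % 2 = 1) :=
      (Primrec.eq.comp (Primrec.nat_mod.comp Primrec.id (.const 2)) (.const 1)).decide
    have a2 := hev.comp (Primrec.fst.comp hu) (Primrec.succ.comp (Primrec.snd.comp hu))
    have a3 := hev.comp (Primrec.fst.comp hu) (Primrec.snd.comp hu)
    have a4 := Primrec.and.comp a1 (Primrec.and.comp a2 (Primrec.not.comp a3))
    exact a4
  have ho : Primrec o := Primrec.nat_double.comp (Primrec.fst.comp hu)
  have H1 : ∀ m, h m = true → h (o m) = false := fun m _ => by simp [h, o]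
  have H2 : ∀ e, {m | h m = true ∧ o m = e}.Finite := by
    intro e
    apply Set.Subsingleton.finite
    rintro m ⟨a1, a2⟩ m' ⟨b1, b2⟩
    simp only [h, o, Bool.and_eq_true, decide_eq_true_eq, Bool.not_eq_true'] at a1 a2 b1 b2
    have e1 : (m / 2).unpair.1 = (m' / 2).unpair.1 := by omega
    have e2 : (m / 2).unpair.2 = (m' / 2).unpair.2 := by
      rw [e1] at a1
      rcases lt_trichotomy (m / 2).unpair.2 (m' / 2).unpair.2 with c | c | c
      · have := hmono _ c a1.2.1
        rw [b1.2.2] at this; simp at this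
      · exact c
      · have := hmono _ c b1.2.1
        rw [a1.2.2] at this; simp at this
    have e3 : m / 2 = m' / 2 := by
      rw [← Nat.pair_unpair (m / 2), e1, e2, Nat.pair_unpair]
    omega
  obtain ⟨ν, hν, hA⟩ := exists_copy hh ho H1 H2
  refine ⟨ν, hν, fun hcomp => ?_⟩
  have hdec : ∀ n m, m ∈ (dec H2 (2 ^ (2 * n + 1))).1 ↔ m = 2 * n ∨ (h m = true ∧ o m = 2 * n) := by
    intro n m
    simp only [dec, memb, fpart, Nat.testBit_two_pow, Set.mem_ofPred_eq]
    by_cases c1 : m = 2 * n
    · have : h m = false := by simp [h, c1]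
      simp [← c1, this]
    · by_cases c2 : o m = 2 * n
      · simp [c1, Ne.symm c1, c2]
      · simp [c1, Ne.symm c1, c2, Ne.symm c2]
  have hkey : ∀ n, dec H2 (2 ^ (2 * n + 1)) ∈ atoms ↔ ¬ ∃ t, ev n t = true := by
    intro n
    constructor
    · rintro ⟨u, hu⟩ hex
      have c0 : Nat.find hex ≠ 0 := by
        intro c
        have := Nat.find_spec hex
        rw [c] at this
        simp [ev, evaln] at this
      obtain ⟨t, ht⟩ := Nat.exists_eq_succ_of_ne_zero c0
      have c1 : ev n (t + 1) = true := by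
        have := Nat.find_spec hex
        rwa [ht] at this
      have c2 : ev n t = false := by
        have := Nat.find_min hex (show t < Nat.find hex by omega)
        simpa using this
      have c3 : (2 * Nat.pair n t + 1) / 2 = Nat.pair n t := by omega
      have d1 := (hdec n (2 * n)).2 (Or.inl rfl)
      have d2 := (hdec n (2 * Nat.pair n t + 1)).2 (Or.inr ⟨by simp [h, c3, c1, c2],
        by simp [o, c3]⟩)
      rw [← hu] at d1 d2
      simp only [fin, Finset.coe_singleton, Set.mem_singleton_iff] at d1 d2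
      omega
    · intro hex
      refine ⟨2 * n, Subtype.ext ?_⟩
      ext m
      rw [hdec]
      simp only [fin, Finset.coe_singleton, Set.mem_singleton_iff]
      refine ⟨Or.inl, fun c => c.resolve_right fun c => hex ?_⟩
      simp only [h, o, Bool.and_eq_true, decide_eq_true_eq] at c
      have e1 : (m / 2).unpair.1 = n := by omega
      exact ⟨_, e1 ▸ c.1.2.1⟩
  apply ComputablePred.halting_problem 0
  have h1 : Computable fun c : Code => !ind (ν '' atoms) (2 ^ (2 * Encodable.encode c + 1)) :=
    Primrec.not.to_comp.comp (hcomp.comp (prim_pow.comp (.const 2) (Primrec.succ.comp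
      (Primrec.nat_double.comp Primrec.encode))).to_comp)
  refine ComputablePred.computable_iff.2 ⟨_, h1, ?_⟩
  funext c
  rw [Bool.not_eq_true', Bool.eq_false_iff, Ne, ind_iff, hA, hkey, not_not]
  simp only [ev, Denumerable.ofNat_encode, Part.dom_iff_mem, evaln_complete,
    Option.isSome_iff_exists, Option.mem_def]
  exact propext exists_comm

end Pool.Agent.Lib.MP_5205a5_lc
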