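import Mathlib

namespace Pool.Agent.Lib.MP_5205a5_lc

open Classical in
/-- The characteristic function of a set of natural numbers. -/
noncomputable def chi (S : Set ℕ) : ℕ →. ℕ := fun n => Part.some (if n ∈ S then 1 else 0)

/-- The Turing degree of a set of natural numbers. -/
noncomputable def degree (S : Set ℕ) : TuringDegree :=
  toAntisymmetrization TuringReducible (chi S)

/-- `ν` is an isomorphism of the Boolean algebra `B` onto a computable Boolean algebra whose
domain is a set of natural numbers: `ν` is injective, its range is computable, and the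
transported operations are computable. -/
def IsComputableCopy {B : Type} [BooleanAlgebra B] (ν : B → ℕ) : Prop :=
  Function.Injective ν ∧ ComputablePred (fun n => n ∈ Set.range ν) ∧
    (∃ f : ℕ → ℕ → ℕ, Computable₂ f ∧ ∀ a b, ν (a ⊓ b) = f (ν a) (ν b)) ∧
    (∃ f : ℕ → ℕ → ℕ, Computable₂ f ∧ ∀ a b, ν (a ⊔ b) = f (ν a) (ν b)) ∧
    (∃ f : ℕ → ℕ, Computable f ∧ ∀ a, ν (compl a) = f (ν a))

/-- The degree spectrum of a unary relation `R` on a Boolean algebra `B`. -/
def DgSp {B : Type} [BooleanAlgebra B] (R : Set B) : Set TuringDegree :=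
  {d | ∃ ν : B → ℕ, IsComputableCopy ν ∧ d = degree (ν '' R)}

end Pool.Agent.Lib.MP_5205a5_lc
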