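import Pool.Agent.Shared.Oracle.RE

/-!
A Kumabe-Slaman forcing construction: for a countable family of noncomputable sets `C i`, a
noncomputable set `D` and any set `Z`, there is `G` not computing `D` such that `G` and `C i`
together compute `Z`, for every `i`.
-/

namespace Pool.Agent.Lib.MP_5205a5_lc

open Encodable Pool.Agent.Shared.Oracle

/-- The label carried by a position. -/
def lab (m : ℕ) : List Bool × ℕ × Bool :=
  (decode (α := List Bool × ℕ × Bool) (Nat.unpair m).1).getD ([], 0, false)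

theorem lab_pair (x : List Bool × ℕ × Bool) (j : ℕ) : lab (Nat.pair (encode x) j) = x := by
  simp [lab]

theorem prim_lab : Primrec lab :=
  Primrec.option_getD.comp (Primrec.decode.comp (Primrec.fst.comp Primrec.unpair))
    (Primrec.const _)

/-- The string of position `m` is an initial segment of `X`. -/
def Along (X : ℕ → Bool) (m : ℕ) : Prop := (lab m).1 = seg X (lab m).1.length

/-- A column of a real. -/
def col (U : ℕ → Bool) (j : ℕ) : ℕ → Bool := fun m => U (Nat.pair j m)

/-- The first `k` columns. -/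
def cols (U : ℕ → Bool) (k : ℕ) : Set (ℕ → Bool) := {X | ∃ j < k, X = col U j}

/-- `q` adds to `p` no position along a member of `S`. -/
def Clean (p q : List Bool) (S : Set (ℕ → Bool)) : Prop :=
  ∀ m, p.length ≤ m → q[m]? = some true → ∀ X ∈ S, ¬ Along X m

/-- A finite certificate for `Clean`. -/
def CleanFin (p q : List Bool) (k : ℕ) (σ : List Bool) : Prop :=
  ∀ m < q.length, p.length ≤ m → q[m]? = some true → ∀ j < k,
    ∃ i < (lab m).1.length, σ[Nat.pair j i]? = ((lab m).1[i]?).map not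

theorem not_along_iff {X : ℕ → Bool} {m : ℕ} :
    ¬ Along X m ↔ ∃ i < (lab m).1.length, some (X i) = ((lab m).1[i]?).map not := by
  unfold Along
  generalize (lab m).1 = τ
  constructor
  · intro h
    by_contra hcon
    push Not at hcon
    apply h
    apply List.ext_getElem (by simp)
    intro i h1 h2
    have h3 := hcon i h1
    rw [List.getElem?_eq_getElem h1] at h3
    simp only [seg, List.getElem_map, List.getElem_range]
    cases hx : X i <;> cases ht : τ[i] <;> simp_all
  · rintro ⟨i, hi, e⟩ h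
    rw [h, seg_getElem?, if_pos hi] at e
    simp at e

theorem clean_iff (p q : List Bool) (U : ℕ → Bool) (k : ℕ) :
    Clean p q (cols U k) ↔ ∃ l, CleanFin p q k (seg U l) := by
  constructor
  · intro h
    refine ⟨((Finset.range q.length).sup fun m => (Finset.range k).sup fun j =>
      (Finset.range (lab m).1.length).sup fun i => Nat.pair j i) + 1, ?_⟩
    intro m hm hp hq j hj
    obtain ⟨i, hi, e⟩ := not_along_iff.1 (h m hp hq _ ⟨j, hj, rfl⟩)
    refine ⟨i, hi, ?_⟩
    rw [seg_getElem?, if_pos]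
    · exact e
    · apply Nat.lt_succ_of_le
      refine le_trans ?_ (Finset.le_sup (f := fun m => (Finset.range k).sup fun j =>
        (Finset.range (lab m).1.length).sup fun i => Nat.pair j i) (Finset.mem_range.2 hm))
      refine le_trans ?_ (Finset.le_sup (f := fun j =>
        (Finset.range (lab m).1.length).sup fun i => Nat.pair j i) (Finset.mem_range.2 hj))
      exact Finset.le_sup (f := fun i => Nat.pair j i) (Finset.mem_range.2 hi)
  · rintro ⟨l, h⟩ m hp hq _ ⟨j, hj, rfl⟩
    obtain ⟨i, hi, e⟩ := h m (List.getElem?_eq_some_iff.1 hq).1 hp hq j hj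
    refine not_along_iff.2 ⟨i, hi, ?_⟩
    rw [seg_getElem?] at e
    split_ifs at e with h1
    · exact e
    · rw [List.getElem?_eq_getElem hi] at e
      simp at e

theorem prim_cleanFin (p : List Bool) (k : ℕ) :
    PrimrecPred fun r : List Bool × List Bool => CleanFin p r.1 k r.2 := by
  have h1 : PrimrecPred fun r : ℕ × ℕ × ℕ × List Bool × List Bool =>
      r.2.2.2.2[Nat.pair r.2.1 r.1]? = ((lab r.2.2.1).1[r.1]?).map not :=
    Primrec.eq.comp
      (Primrec.list_getElem?.comp
        (Primrec.snd.comp (Primrec.snd.comp (Primrec.snd.comp Primrec.snd)))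
        (Primrec₂.natPair.comp (Primrec.fst.comp Primrec.snd) Primrec.fst))
      ((Primrec.option_map₁ Primrec.not).comp (Primrec.list_getElem?.comp
        (Primrec.fst.comp (prim_lab.comp (Primrec.fst.comp (Primrec.snd.comp Primrec.snd))))
        Primrec.fst))
  have h2 : PrimrecPred fun r : ℕ × ℕ × List Bool × List Bool =>
      ∃ i < (lab r.2.1).1.length, r.2.2.2[Nat.pair r.1 i]? = ((lab r.2.1).1[i]?).map not :=
    prim_exists_lt (R := fun i (r : ℕ × ℕ × List Bool × List Bool) =>
      r.2.2.2[Nat.pair r.1 i]? = ((lab r.2.1).1[i]?).map not)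
      (Primrec.list_length.comp (Primrec.fst.comp (prim_lab.comp (Primrec.fst.comp Primrec.snd))))
      h1
  have h3 : PrimrecPred fun r : ℕ × List Bool × List Bool => ∀ j < k,
      ∃ i < (lab r.1).1.length, r.2.2[Nat.pair j i]? = ((lab r.1).1[i]?).map not :=
    prim_forall_lt (R := fun j (r : ℕ × List Bool × List Bool) =>
      ∃ i < (lab r.1).1.length, r.2.2[Nat.pair j i]? = ((lab r.1).1[i]?).map not)
      (Primrec.const k) h2
  have h4 : PrimrecPred fun r : ℕ × List Bool × List Bool => p.length ≤ r.1 →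
      r.2.1[r.1]? = some true → ∀ j < k,
      ∃ i < (lab r.1).1.length, r.2.2[Nat.pair j i]? = ((lab r.1).1[i]?).map not :=
    prim_imp (Primrec.nat_le.comp (Primrec.const _) Primrec.fst)
      (prim_imp (Primrec.eq.comp (Primrec.list_getElem?.comp (Primrec.fst.comp Primrec.snd)
        Primrec.fst) (Primrec.const _)) h3)
  exact prim_forall_lt (R := fun m (r : List Bool × List Bool) => p.length ≤ m →
      r.1[m]? = some true → ∀ j < k,
      ∃ i < (lab m).1.length, r.2[Nat.pair j i]? = ((lab m).1[i]?).map not)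
      (Primrec.list_length.comp Primrec.fst) h4

theorem singleton_computable {w : List Bool → Prop} (hw : REPred w) (σ : List Bool) (j : ℕ)
    (C : ℕ → Bool) (hne : ∃ U, (∀ l, ¬ w (seg U l)) ∧ seg U σ.length = σ)
    (hall : ∀ U, (∀ l, ¬ w (seg U l)) → seg U σ.length = σ → col U j = C) : Computable C := by
  have key : ∀ b : Bool, REPred fun m => C m = b := by
    intro b
    have h1 : REPred fun r : ℕ × List Bool => w r.2 ∨
        ((σ.length ≤ r.2.length ∧ ¬ r.2.take σ.length = σ) ∨ r.2[Nat.pair j r.1]? = some b) :=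
      re_or (re_comp hw Computable.snd) (re_of_prim (PrimrecPred.or
        ((Primrec.nat_le.comp (Primrec.const _) (Primrec.list_length.comp Primrec.snd)).and
          (Primrec.eq.comp (Primrec.list_take.comp (Primrec.const _) Primrec.snd)
            (Primrec.const _)).not)
        (Primrec.eq.comp (Primrec.list_getElem?.comp Primrec.snd
          (Primrec₂.natPair.comp (Primrec.const _) Primrec.fst)) (Primrec.const _))))
    refine (re_forall_real (w := fun m τ => w τ ∨
        ((σ.length ≤ τ.length ∧ ¬ τ.take σ.length = σ) ∨ τ[Nat.pair j m]? = some b)) h1).of_eq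
      fun m => ?_
    constructor
    · intro h
      obtain ⟨U, hU, eU⟩ := hne
      obtain ⟨l, h | ⟨h1, h2⟩ | h⟩ := h U
      · exact absurd h (hU l)
      · rw [seg_length] at h1
        rw [seg_take U h1] at h2
        exact absurd eU h2
      · rw [seg_getElem?] at h
        split_ifs at h
        rw [← hall U hU eU]
        simpa [col] using h
    · intro h U
      by_cases hU : ∀ l, ¬ w (seg U l)
      · by_cases eU : seg U σ.length = σ
        · refine ⟨Nat.pair j m + 1, Or.inr (Or.inr ?_)⟩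
          rw [seg_getElem?, if_pos (Nat.lt_succ_self _), ← h, ← hall U hU eU]
          rfl
        · refine ⟨σ.length, Or.inr (Or.inl ⟨by simp, ?_⟩)⟩
          rwa [seg_take U le_rfl]
      · push Not at hU
        obtain ⟨l, hl⟩ := hU
        exact ⟨l, Or.inl hl⟩
  exact computable_of_re (key true) (key false)

theorem avoid {w : List Bool → Prop} (hw : REPred w) (hne : ∃ U, ∀ l, ¬ w (seg U l))
    {C : ℕ → ℕ → Bool} (hC : ∀ i, ¬ Computable (C i)) :
    ∃ U, (∀ l, ¬ w (seg U l)) ∧ ∀ j i, col U j ≠ C i := by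
  let K : List Bool → Set (ℕ → Bool) := fun σ => {U | (∀ l, ¬ w (seg U l)) ∧ seg U σ.length = σ}
  have hstep : ∀ (s : ℕ) (σ : {σ // (K σ).Nonempty}), ∃ τ : {σ // (K σ).Nonempty},
      ∀ U ∈ K τ, U ∈ K σ ∧ col U (Nat.unpair s).1 ≠ C (Nat.unpair s).2 := by
    rintro s ⟨σ, hσ⟩
    have h1 : ¬ ∀ U, (∀ l, ¬ w (seg U l)) → seg U σ.length = σ →
        col U (Nat.unpair s).1 = C (Nat.unpair s).2 :=
      fun h => hC _ (singleton_computable hw σ _ _ hσ h)
    push Not at h1
    obtain ⟨U, hU, eU, hne⟩ := h1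
    obtain ⟨m, hm⟩ := Function.ne_iff.1 hne
    refine ⟨⟨seg U (max σ.length (Nat.pair (Nat.unpair s).1 m + 1)), U, hU, by simp⟩, ?_⟩
    rintro V ⟨hV, eV⟩
    simp only [seg_length] at eV
    have eV' := seg_congr.1 eV
    refine ⟨⟨hV, ?_⟩, fun e => hm ?_⟩
    · show seg V σ.length = σ
      rw [← eU, seg_length]
      exact seg_congr.2 fun i hi => eV' i (by omega)
    · rw [← e]
      exact (eV' _ (by omega)).symm
  choose step hstep using hstep
  obtain ⟨U₀, hU₀⟩ := hne
  let sq : ℕ → {σ // (K σ).Nonempty} := fun s =>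
    Nat.rec ⟨[], U₀, hU₀, rfl⟩ (fun s σ => step s σ) s
  have hK : ∀ σ, IsClosed (K σ) := by
    intro σ
    have : K σ = (⋂ l, {U | ¬ w (seg U l)}) ∩ {U | seg U σ.length = σ} := by
      ext U; simp [K]
    rw [this]
    exact (isClosed_iInter fun l => (isClopen_seg (fun τ => ¬ w τ) l).isClosed).inter
      (isClopen_seg (fun τ => τ = σ) _).isClosed
  obtain ⟨U, hU⟩ := IsCompact.nonempty_iInter_of_sequence_nonempty_isCompact_isClosed
    (fun s => K (sq s).1) (fun s U hU => (hstep s (sq s) U hU).1) (fun s => (sq s).2)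
    (hK (sq 0).1).isCompact (fun s => hK (sq s).1)
  rw [Set.mem_iInter] at hU
  refine ⟨U, (hU 0).1, fun j i => ?_⟩
  simpa using (hstep (Nat.pair j i) (sq _) U (hU (Nat.pair j i + 1))).2

theorem exists_cols {T : Set (ℕ → Bool)} (hT : T.Finite) : ∃ U k, T ⊆ cols U k := by
  obtain ⟨k, f, hf⟩ := hT.fin_param
  refine ⟨fun m => if h : (Nat.unpair m).1 < k then f ⟨_, h⟩ (Nat.unpair m).2 else false, k, ?_⟩
  intro X hX
  rw [← hf.2] at hX
  obtain ⟨j, rfl⟩ := hX
  refine ⟨j, j.2, ?_⟩
  funext m
  simp [col]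

theorem cols_finite (U : ℕ → Bool) (k : ℕ) : (cols U k).Finite :=
  ((Set.finite_lt_nat k).image (col U)).subset fun _ ⟨j, hj, e⟩ => ⟨j, hj, e.symm⟩

theorem key_lemma {C : ℕ → ℕ → Bool} (hC : ∀ i, ¬ Computable (C i)) {D : ℕ → Bool}
    (hD : ¬ Computable D) {F : List Bool → ℕ →. ℕ} (hF : Functional F) (p : List Bool)
    {T : Set (ℕ → Bool)} (hT : T.Finite) :
    (∃ q, p <+: q ∧ Clean p q T ∧ ∃ n v, v ∈ F q n ∧ v ≠ (D n).toNat) ∨
    ∃ n, ∃ S : Set (ℕ → Bool), S.Finite ∧ (∀ X ∈ S, ∀ i, X ≠ C i) ∧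
      ∀ q, p <+: q → Clean p q S → ∀ v, v ∉ F q n := by
  rw [or_iff_not_imp_left]
  intro hA
  push Not at hA
  obtain ⟨U₀, k, hU₀⟩ := exists_cols hT
  let w : ℕ × Bool → List Bool → Prop := fun a σ => ∃ r : List Bool × ℕ,
    r.2 ∈ F r.1 a.1 ∧ (r.1.take p.length = p ∧ ¬ r.2 = a.2.toNat ∧ CleanFin p r.1 k σ)
  have hw : REPred fun x : (ℕ × Bool) × List Bool => w x.1 x.2 := by
    refine re_exists (R := fun (x : (ℕ × Bool) × List Bool) (r : List Bool × ℕ) =>
      r.2 ∈ F r.1 x.1.1 ∧ (r.1.take p.length = p ∧ ¬ r.2 = x.1.2.toNat ∧ CleanFin p r.1 k x.2))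
      (re_and ?_ (re_of_prim ?_))
    · have h1 : Primrec fun z : ((ℕ × Bool) × List Bool) × (List Bool × ℕ) =>
          ((z.2.1, z.1.1.1), z.2.2) :=
        ((Primrec.fst.comp Primrec.snd).pair
          (Primrec.fst.comp (Primrec.fst.comp Primrec.fst))).pair (Primrec.snd.comp Primrec.snd)
      have h2 : REPred fun z : (List Bool × ℕ) × ℕ => z.2 ∈ F z.1.1 z.1.2 :=
        re_mem (f := fun z : List Bool × ℕ => F z.1 z.2) hF.partrec
      have h3 := re_comp h2 h1.to_comp
      exact h3
    · have h1 : PrimrecPred fun z : ((ℕ × Bool) × List Bool) × (List Bool × ℕ) =>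
          z.2.1.take p.length = p :=
        Primrec.eq.comp (Primrec.list_take.comp (Primrec.const _)
          (Primrec.fst.comp Primrec.snd)) (Primrec.const _)
      have h2 : PrimrecPred fun z : ((ℕ × Bool) × List Bool) × (List Bool × ℕ) =>
          z.2.2 = z.1.1.2.toNat :=
        Primrec.eq.comp (Primrec.snd.comp Primrec.snd) ((Primrec.dom_bool Bool.toNat).comp
          (Primrec.snd.comp (Primrec.fst.comp Primrec.fst)))
      have h3 : Primrec fun z : ((ℕ × Bool) × List Bool) × (List Bool × ℕ) => (z.2.1, z.1.2) :=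
        (Primrec.fst.comp Primrec.snd).pair (Primrec.snd.comp Primrec.fst)
      have h4 : PrimrecPred fun z : ((ℕ × Bool) × List Bool) × (List Bool × ℕ) =>
          CleanFin p z.2.1 k z.1.2 :=
        PrimrecPred.comp (p := fun r : List Bool × List Bool => CleanFin p r.1 k r.2)
          (prim_cleanFin p k) h3
      exact h1.and (h2.not.and h4)
  have hw_iff : ∀ a U, (∀ l, ¬ w a (seg U l)) ↔
      ∀ q, p <+: q → Clean p q (cols U k) → ∀ v ∈ F q a.1, v = a.2.toNat := by
    intro a U
    constructor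
    · intro h q hq hc v hv
      obtain ⟨l, hl⟩ := (clean_iff p q U k).1 hc
      by_contra hne
      exact h l ⟨(q, v), hv, (List.prefix_iff_eq_take.1 hq).symm, hne, hl⟩
    · rintro h l ⟨⟨q, v⟩, hv, hq, hne, hl⟩
      exact hne (h q (List.prefix_iff_eq_take.2 hq.symm) ((clean_iff p q U k).2 ⟨l, hl⟩) v hv)
  have h0 : ∀ n, ∀ l, ¬ w (n, D n) (seg U₀ l) := fun n =>
    (hw_iff _ _).2 fun q hq hc v hv =>
      hA q hq (fun m h1 h2 X hX => hc m h1 h2 X (hU₀ hX)) n v hv
  have h1 : ∃ n, ∃ U, ∀ l, ¬ w (n, !D n) (seg U l) := by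
    by_contra hcon
    push Not at hcon
    apply hD
    have key : ∀ b : Bool, REPred fun n => D n = b := by
      intro b
      refine (re_comp (re_forall_real hw) (f := fun n : ℕ => (n, !b))
        (Computable.id.pair (Computable.const _))).of_eq fun n => ?_
      constructor
      · intro h
        by_contra hne
        obtain ⟨l, hl⟩ := h U₀
        have : (!b) = D n := by cases b <;> cases hd : D n <;> simp_all
        rw [this] at hl
        exact h0 n l hl
      · rintro rfl
        exact hcon n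
    exact computable_of_re (key true) (key false)
  obtain ⟨n, h1⟩ := h1
  have hwa : ∀ a, REPred (w a) := fun a =>
    re_comp hw (f := fun σ : List Bool => (a, σ)) ((Computable.const a).pair Computable.id)
  obtain ⟨U₁, hU₁, a₁⟩ := avoid (hwa _) ⟨U₀, h0 n⟩ hC
  obtain ⟨U₂, hU₂, a₂⟩ := avoid (hwa _) h1 hC
  refine ⟨n, cols U₁ k ∪ cols U₂ k, (cols_finite _ _).union (cols_finite _ _), ?_, ?_⟩
  · rintro X (⟨j, -, rfl⟩ | ⟨j, -, rfl⟩) i
    · exact a₁ j i
    · exact a₂ j i
  · intro q hq hc v hv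
    have e₁ := (hw_iff _ _).1 hU₁ q hq (fun m h1 h2 X hX => hc m h1 h2 X (Or.inl hX)) v hv
    have e₂ := (hw_iff _ _).1 hU₂ q hq (fun m h1 h2 X hX => hc m h1 h2 X (Or.inr hX)) v hv
    rw [e₁] at e₂
    cases hd : D n <;> simp [hd] at e₂

theorem coding_lemma (q : List Bool) {S : Set (ℕ → Bool)} (hS : S.Finite) {C : ℕ → Bool}
    (hC : ∀ X ∈ S, X ≠ C) (n : ℕ) (b : Bool) :
    ∃ r m, q <+: r ∧ q.length ≤ m ∧ r[m]? = some true ∧
      (∀ m', q.length ≤ m' → r[m']? = some true → m' = m) ∧
      Along C m ∧ (lab m).2 = (n, b) ∧ ∀ X ∈ S, ¬ Along X m := by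
  have h1 : ∀ X : S, ∃ t, X.1 t ≠ C t := fun X => Function.ne_iff.1 (hC X.1 X.2)
  choose t ht using h1
  have := hS.to_subtype
  obtain ⟨L, hL⟩ := (Set.finite_range t).bddAbove
  set m := Nat.pair (encode (seg C (L + 1), n, b)) q.length with hm
  have hqm : q.length ≤ m := Nat.right_le_pair _ _
  have hlab : lab m = (seg C (L + 1), n, b) := lab_pair _ _
  have hlen : (q ++ List.replicate (m - q.length) false).length = m := by
    simp only [List.length_append, List.length_replicate]; omega
  refine ⟨q ++ List.replicate (m - q.length) false ++ [true], m, ?_, hqm, ?_, ?_, ?_, ?_, ?_⟩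
  · rw [List.append_assoc]; exact List.prefix_append _ _
  · rw [List.getElem?_append_right hlen.le, hlen]; simp
  · intro m' h1 h2
    rcases lt_trichotomy m' m with h | h | h
    · rw [List.getElem?_append_left (by omega), List.getElem?_append_right h1,
        List.getElem?_replicate] at h2
      split_ifs at h2
      simp at h2
    · exact h
    · have := (List.getElem?_eq_some_iff.1 h2).1
      rw [List.length_append, hlen] at this
      simp only [List.length_cons, List.length_nil] at this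
      omega
  · simp [Along, hlab]
  · rw [hlab]
  · intro X hX h
    simp only [Along, hlab, seg_length] at h
    exact ht ⟨X, hX⟩ (seg_congr.1 h _ (Nat.lt_succ_of_le (hL ⟨⟨X, hX⟩, rfl⟩))).symm

/-- One stage of the construction. -/
structure Step (C : ℕ → ℕ → Bool) (D Z : ℕ → Bool) (F : List Bool → ℕ →. ℕ) (s : ℕ)
    (x y : List Bool × Set (ℕ → Bool)) : Prop where
  pre : x.1 <+: y.1
  sub : x.2 ⊆ y.2
  clean : Clean x.1 y.1 y.2
  correct : ∀ m, x.1.length ≤ m → y.1[m]? = some true → ∀ i ≤ s, Along (C i) m →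
    (lab m).2.2 = Z (lab m).2.1
  coded : ∃ m, x.1.length ≤ m ∧ y.1[m]? = some true ∧ Along (C (Nat.unpair s).1) m ∧
    (lab m).2.1 = (Nat.unpair s).2
  diag : (∃ n v, v ∈ F y.1 n ∧ v ≠ (D n).toNat) ∨
    ∃ n, ∀ q, x.1 <+: q → Clean x.1 q y.2 → ∀ v, v ∉ F q n

theorem getElem?_of_prefix {q r : List Bool} (h : q <+: r) {m : ℕ} (hm : m < q.length) :
    r[m]? = q[m]? := by
  obtain ⟨t, rfl⟩ := h
  exact List.getElem?_append_left hm

theorem exists_step {C : ℕ → ℕ → Bool} (hC : ∀ i, ¬ Computable (C i)) {D : ℕ → Bool}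
    (hD : ¬ Computable D) (Z : ℕ → Bool) {F : List Bool → ℕ →. ℕ} (hF : Functional F) (s : ℕ)
    (x : List Bool × Set (ℕ → Bool)) (hx : x.2.Finite ∧ ∀ X ∈ x.2, ∀ i, X ≠ C i) :
    ∃ y : List Bool × Set (ℕ → Bool), (y.2.Finite ∧ ∀ X ∈ y.2, ∀ i, X ≠ C i) ∧
      Step C D Z F s x y := by
  obtain ⟨p, S⟩ := x
  obtain ⟨hS, hSC⟩ := hx
  have hT : (S ∪ C '' {i | i ≤ s}).Finite := hS.union ((Set.finite_le_nat s).image C)
  rcases key_lemma hC hD hF p hT with ⟨q, hq, hc, n, v, hv, hne⟩ | ⟨n, S', hS', hS'C, h⟩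
  · obtain ⟨r, m, h1, h2, h3, h4, h5, h6, h7⟩ := coding_lemma q hS (fun X hX => hSC X hX _)
      (C := C (Nat.unpair s).1) (Nat.unpair s).2 (Z (Nat.unpair s).2)
    refine ⟨(r, S), ⟨hS, hSC⟩, hq.trans h1, subset_rfl, ?_, ?_,
      ⟨m, hq.length_le.trans h2, h3, h5, by rw [h6]⟩, Or.inl ⟨n, v, hF.mono h1 hv, hne⟩⟩
    · intro m' a1 a2 X hX
      rcases lt_or_ge m' q.length with h | h
      · rw [getElem?_of_prefix h1 h] at a2
        exact hc m' a1 a2 X (Or.inl hX)
      · rw [h4 m' h a2]; exact h7 X hX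
    · intro m' a1 a2 i hi ha
      rcases lt_or_ge m' q.length with h | h
      · rw [getElem?_of_prefix h1 h] at a2
        exact absurd ha (hc m' a1 a2 _ (Or.inr ⟨i, hi, rfl⟩))
      · rw [h4 m' h a2, h6]
  · have hS2 : ∀ X ∈ S ∪ S', ∀ i, X ≠ C i := by
      rintro X (hX | hX)
      · exact hSC X hX
      · exact hS'C X hX
    obtain ⟨r, m, h1, h2, h3, h4, h5, h6, h7⟩ := coding_lemma p (hS.union hS')
      (fun X hX => hS2 X hX _) (C := C (Nat.unpair s).1) (Nat.unpair s).2 (Z (Nat.unpair s).2)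
    refine ⟨(r, S ∪ S'), ⟨hS.union hS', hS2⟩, h1, Set.subset_union_left, ?_, ?_,
      ⟨m, h2, h3, h5, by rw [h6]⟩,
      Or.inr ⟨n, fun q hq hc => h q hq fun m a1 a2 X hX => hc m a1 a2 X (Or.inr hX)⟩⟩
    · intro m' a1 a2 X hX
      rw [h4 m' a1 a2]; exact h7 X hX
    · intro m' a1 a2 i _ _
      rw [h4 m' a1 a2, h6]

theorem exists_generic {C : ℕ → ℕ → Bool} (hC : ∀ i, ¬ Computable (C i)) {D : ℕ → Bool}
    (hD : ¬ Computable D) (Z : ℕ → Bool) :
    ∃ G : ℕ → Bool, ¬ ComputableIn {orc G} D ∧ ∀ i, ComputableIn {orc G, orc (C i)} Z := by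
  obtain ⟨F, hF, hFall⟩ := exists_enum_functional
  let St := {x : List Bool × Set (ℕ → Bool) // x.2.Finite ∧ ∀ X ∈ x.2, ∀ i, X ≠ C i}
  have hstep : ∀ (s : ℕ) (x : St), ∃ y : St, Step C D Z (F s) s x.1 y.1 := fun s x => by
    obtain ⟨y, hy, h⟩ := exists_step hC hD Z (hF s) s x.1 x.2
    exact ⟨⟨y, hy⟩, h⟩
  choose step hstep using hstep
  let sq : ℕ → St := fun s =>
    Nat.rec ⟨([], ∅), Set.finite_empty, fun _ h => h.elim⟩ (fun s x => step s x) s
  let p : ℕ → List Bool := fun s => (sq s).1.1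
  let S : ℕ → Set (ℕ → Bool) := fun s => (sq s).1.2
  have hs : ∀ s, Step C D Z (F s) s (p s, S s) (p (s + 1), S (s + 1)) := fun s => hstep s (sq s)
  have hp0 : p 0 = [] := rfl
  have hpre : ∀ {s t}, s ≤ t → p s <+: p t := by
    intro s t h
    induction t, h using Nat.le_induction with
    | base => exact List.prefix_refl _
    | succ t _ ih => exact ih.trans (hs t).pre
  have hsub : ∀ {s t}, s ≤ t → S s ⊆ S t := by
    intro s t h
    induction t, h using Nat.le_induction with
    | base => exact subset_rfl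
    | succ t _ ih => exact ih.trans (hs t).sub
  have hlen : ∀ s, s ≤ (p s).length := by
    intro s
    induction s with
    | zero => exact Nat.zero_le _
    | succ s ih =>
      obtain ⟨m, h1, h2, -⟩ := (hs s).coded
      have := (List.getElem?_eq_some_iff.1 h2).1
      simp only at h1 this
      omega
  let G : ℕ → Bool := fun m => ((p (m + 1))[m]?).getD false
  have hG : ∀ s m, m < (p s).length → (p s)[m]? = some (G m) := by
    intro s m hm
    have h1 : m < (p (m + 1)).length := hlen (m + 1)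
    have h2 := getElem?_of_prefix (hpre (le_max_left s (m + 1))) hm
    have h3 := getElem?_of_prefix (hpre (le_max_right s (m + 1))) h1
    rw [← h2, h3]
    simp only [G]
    rw [List.getElem?_eq_getElem h1]
    rfl
  have hseg : ∀ s, seg G (p s).length = p s := by
    intro s
    apply List.ext_getElem?
    intro m
    rw [seg_getElem?]
    split_ifs with h
    · exact (hG s m h).symm
    · exact (List.getElem?_eq_none (not_lt.1 h)).symm
  have hstage : ∀ s m, (p s).length ≤ m → G m = true →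
      ∃ t, s ≤ t ∧ (p t).length ≤ m ∧ (p (t + 1))[m]? = some true := by
    intro s m hm hGm
    have hex : ∃ t, m < (p (t + 1)).length := ⟨m, hlen (m + 1)⟩
    refine ⟨Nat.find hex, ?_, ?_, ?_⟩
    · by_contra hlt
      have h1 := (hpre (show Nat.find hex + 1 ≤ s by omega)).length_le
      have h2 := Nat.find_spec hex
      omega
    · rcases h : Nat.find hex with - | t
      · simp [hp0]
      · exact not_lt.1 (Nat.find_min hex (show t < Nat.find hex by omega))
    · rw [hG (Nat.find hex + 1) m (Nat.find_spec hex), hGm]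
  refine ⟨G, fun h => ?_, fun i => ?_⟩
  · obtain ⟨F', hF', e⟩ := use_principle (RecursiveIn.iff_nat.1 (orc_iff.2 h))
    obtain ⟨s, rfl⟩ := hFall F' hF'
    rcases (hs s).diag with ⟨n, v, hv, hne⟩ | ⟨n, h⟩
    · apply hne
      have : v ∈ orc D n := (e n v).2 ⟨(p (s + 1)).length, by rw [hseg (s + 1)]; exact hv⟩
      simpa [orc] using this
    · obtain ⟨k, hk⟩ := (e n (D n).toNat).1 (by simp [orc])
      refine h (seg G (max k (p s).length)) ?_ ?_ _
        (hF'.mono (seg_prefix G (le_max_left _ _)) hk)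
      · show p s <+: _
        conv_lhs => rw [← hseg s]
        exact seg_prefix G (le_max_right _ _)
      · intro m h1 h2 X hX
        rw [seg_getElem?] at h2
        split_ifs at h2
        obtain ⟨t, ht, a1, a2⟩ := hstage s m h1 (by simpa using h2)
        exact (hs t).clean m a1 a2 X (hsub (show s + 1 ≤ t + 1 by omega) hX)
  · classical
    let P : ℕ → ℕ → Bool := fun n m => G m && decide ((p i).length ≤ m ∧
      (lab m).1 = seg (C i) (lab m).1.length ∧ (lab m).2.1 = n)
    have hex : ∀ n, ∃ m, P n m = true := by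
      intro n
      obtain ⟨m, h1, h2, h3, h4⟩ := (hs (Nat.pair i n)).coded
      simp only [Nat.unpair_pair] at h3 h4
      refine ⟨m, ?_⟩
      have h5 := hG (Nat.pair i n + 1) m (List.getElem?_eq_some_iff.1 h2).1
      rw [h2] at h5
      simp only [P, Bool.and_eq_true, decide_eq_true_eq]
      exact ⟨by simpa using h5.symm,
        (hpre (Nat.left_le_pair i n)).length_le.trans h1, h3, h4⟩
    have hGin : ComputableIn {orc G, orc (C i)} G := cin_orc (by simp)
    have hCin : ComputableIn {orc G, orc (C i)} (C i) := cin_orc (by simp)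
    have hQ : PrimrecPred fun r : (ℕ × ℕ) × List Bool =>
        (p i).length ≤ r.1.2 ∧ (lab r.1.2).1 = r.2 ∧ (lab r.1.2).2.1 = r.1.1 :=
      (Primrec.nat_le.comp (Primrec.const _) (Primrec.snd.comp Primrec.fst)).and
        ((Primrec.eq.comp (Primrec.fst.comp (prim_lab.comp (Primrec.snd.comp Primrec.fst)))
          Primrec.snd).and
        (Primrec.eq.comp (Primrec.fst.comp (Primrec.snd.comp
          (prim_lab.comp (Primrec.snd.comp Primrec.fst)))) (Primrec.fst.comp Primrec.fst)))
    have hP1 : ComputableIn {orc G, orc (C i)} fun r : ℕ × ℕ => G r.2 :=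
      cin_comp (f := G) (g := Prod.snd) hGin ComputableIn.snd
    have hP2 : Primrec fun r : ℕ × ℕ => (lab r.2).1.length :=
      Primrec.list_length.comp (Primrec.fst.comp (prim_lab.comp Primrec.snd))
    have hP3 : ComputableIn {orc G, orc (C i)} fun r : ℕ × ℕ => seg (C i) (lab r.2).1.length :=
      cin_comp (f := seg (C i)) (cin_seg hCin) hP2.computableIn
    have hP4 : ComputableIn {orc G, orc (C i)} fun r : ℕ × ℕ => decide ((p i).length ≤ r.2 ∧
        (lab r.2).1 = seg (C i) (lab r.2).1.length ∧ (lab r.2).2.1 = r.1) :=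
      cin_comp (g := fun r : ℕ × ℕ => (r, seg (C i) (lab r.2).1.length))
        hQ.decide.computableIn (cin_pair ComputableIn.id hP3)
    have hP : ComputableIn₂ {orc G, orc (C i)} P :=
      cin_comp₂ (f := and) Primrec.and.computableIn₂ hP1 hP4
    have hL : Primrec fun m : ℕ => (lab m).2.2 := Primrec.snd.comp (Primrec.snd.comp prim_lab)
    refine cin_of_eq (cin_comp (f := fun m : ℕ => (lab m).2.2) hL.computableIn
      (cin_find hP hex)) fun n => ?_
    have h1 := Nat.find_spec (hex n)
    generalize Nat.find (hex n) = m at h1 ⊢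
    simp only [P, Bool.and_eq_true, decide_eq_true_eq] at h1
    obtain ⟨a1, a2, a3, a4⟩ := h1
    obtain ⟨t, ht, b1, b2⟩ := hstage i _ a2 a1
    have := (hs t).correct _ b1 b2 i ht a3
    rw [this, a4]

end Pool.Agent.Lib.MP_5205a5_lc
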