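import Pool.Agent.Lib.MP_5205a5_lc.Copies
import Pool.Agent.Lib.MP_5205a5_lc.Forcing

namespace Pool.Agent.Lib.MP_5205a5_lc

open Pool.Agent.Shared.Oracle

theorem degree_eq_iff {S T : Set ℕ} : degree S = degree T ↔
    ComputableIn {orc (ind T)} (ind S) ∧ ComputableIn {orc (ind S)} (ind T) := by
  rw [← orc_iff, ← orc_iff, ← chi_eq, ← chi_eq]
  exact Quotient.eq (r := AntisymmRel.setoid (ℕ →. ℕ) TuringReducible)

theorem two_element_spectrum : ∃ G : ℕ → Bool, (DgSp (Rel G)).ncard = 2 := by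
  obtain ⟨ν₀, hν₀, hA₀⟩ := exists_copy_computable
  obtain ⟨ν₁, hν₁, hA₁⟩ := exists_copy_noncomputable
  have hc : {X : ℕ → Bool | (∃ ν : FC → ℕ, IsComputableCopy ν ∧ X = ind (ν '' atoms)) ∧
      ¬ Computable X}.Countable := countable_atoms.mono fun X hX => hX.1
  obtain ⟨C, hC⟩ := hc.exists_eq_range ⟨_, ⟨ν₁, hν₁, rfl⟩, hA₁⟩
  have hC1 : ∀ i, ¬ Computable (C i) := fun i => by
    have : C i ∈ Set.range C := ⟨i, rfl⟩
    rw [← hC] at this
    exact this.2
  have hC2 : ∀ ν : FC → ℕ, IsComputableCopy ν → ¬ Computable (ind (ν '' atoms)) →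
      ∃ i, C i = ind (ν '' atoms) := fun ν h1 h2 => by
    have : ind (ν '' atoms) ∈ Set.range C := by
      rw [← hC]; exact ⟨⟨ν, h1, rfl⟩, h2⟩
    exact this
  obtain ⟨G, hG1, hG2⟩ := exists_generic hC1 hA₁ fun m => C m.unpair.1 m.unpair.2
  have self : ∀ X : ℕ → Bool, ComputableIn {orc X} X := fun X => cin_orc rfl
  have low : ∀ ν μ : FC → ℕ, IsComputableCopy ν → IsComputableCopy μ →
      Computable (ind (ν '' atoms)) →
      ComputableIn {orc (ind (μ '' Rel G))} (ind (ν '' Rel G)) := fun ν μ h1 h2 h3 =>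
    rel_le h1 h3.computableIn (code_le h2 (self _))
  have high : ∀ ν μ : FC → ℕ, IsComputableCopy ν → IsComputableCopy μ →
      ¬ Computable (ind (ν '' atoms)) → ¬ Computable (ind (μ '' atoms)) →
      ComputableIn {orc (ind (μ '' Rel G))} (ind (ν '' Rel G)) := by
    intro ν μ h1 h2 h3 h4
    obtain ⟨i, hi⟩ := hC2 ν h1 h3
    obtain ⟨j, hj⟩ := hC2 μ h2 h4
    have a1 : ComputableIn {orc (ind (μ '' Rel G))} fun m : ℕ => C m.unpair.1 m.unpair.2 := by
      refine cin_subst (hG2 j) ?_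
      rintro _ (rfl | rfl)
      · exact orc_iff.2 (code_le h2 (self _))
      · rw [hj]; exact orc_iff.2 (atoms_le h2 (self _))
    have a2 := cin_comp a1 (Primrec₂.natPair.comp (Primrec.const i) Primrec.id).computableIn
    refine rel_le h1 (cin_of_eq a2 fun n => ?_) (code_le h2 (self _))
    simp [hi]
  refine ⟨G, Set.ncard_eq_two.2 ⟨degree (ν₀ '' Rel G), degree (ν₁ '' Rel G), fun e => ?_, ?_⟩⟩
  · apply hG1
    have a1 := (degree_eq_iff.1 e).2
    have a2 : ComputableIn {orc G} (ind (ν₀ '' Rel G)) := rel_le hν₀ hA₀.computableIn (self G)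
    refine atoms_le hν₁ (cin_subst a1 ?_)
    rintro _ rfl
    exact orc_iff.2 a2
  · ext d
    constructor
    · rintro ⟨ν, hν, rfl⟩
      by_cases h : Computable (ind (ν '' atoms))
      · exact Or.inl (degree_eq_iff.2 ⟨low ν ν₀ hν hν₀ h, low ν₀ ν hν₀ hν hA₀⟩)
      · exact Or.inr (degree_eq_iff.2 ⟨high ν ν₁ hν hν₁ h hA₁, high ν₁ ν hν₁ hν hA₁ h⟩)
    · rintro (rfl | rfl)
      · exact ⟨ν₀, hν₀, rfl⟩
      · exact ⟨ν₁, hν₁, rfl⟩

end Pool.Agent.Lib.MP_5205a5_lc
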