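import Pool.Agent.Shared.Oracle.FunProp

/-!
A finite injury construction: an infinite strictly increasing chain of recursively enumerable
Turing degrees.
-/

namespace Pool.Agent.Lib.MP_5205a5_lc.FM

open Encodable Pool.Agent.Shared.Oracle Pool.Agent.Shared.Oracle.FP Nat.Partrec Nat.Partrec.Code

/-- The history: (requirement, stage + 1, enumerated number), newest first. -/
abbrev Hist := List (ℕ × ℕ × ℕ)

/-- The stage after the last action of a requirement below `k`. -/
def last (H : Hist) (k : ℕ) : ℕ := H.foldr (fun p r => cond (decide (p.1 < k)) p.2.1 r) 0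

/-- Requirement `k` has acted since it was last injured. -/
def sat (H : Hist) (k : ℕ) : Bool :=
  H.foldr (fun p r => cond (decide (p.1 = k)) true (cond (decide (p.1 < k)) false r)) false

/-- The number `y` has been enumerated. -/
def mem (H : Hist) (y : ℕ) : Bool := H.foldr (fun p r => decide (p.2.2 = y) || r) false

/-- The current witness of requirement `k`. -/
def wit (H : Hist) (k : ℕ) : ℕ := Nat.pair k.unpair.1 (Nat.pair k (last H k))

/-- The enumerated numbers in columns below `i`. -/
def low (H : Hist) (i y : ℕ) : Bool := mem H y && decide (y.unpair.1 < i)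

/-- A computation with value zero on the witness is visible. -/
def vis (s : ℕ) (H : Hist) (k : ℕ) : Bool :=
  (List.range s).foldr (fun u r => decide (evaln s (Denumerable.ofNat Code k.unpair.2)
    (encode ((List.range u).map (low H k.unpair.1), wit H k)) = some 0) || r) false

/-- Requirement `k` requires attention. -/
def att (s : ℕ) (H : Hist) (k : ℕ) : Bool := !sat H k && vis s H k

/-- The least requirement that requires attention. -/
def next (s : ℕ) (H : Hist) : Option ℕ :=
  (List.range s).foldr (fun k r => cond (att s H k) (some k) r) Option.none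

/-- One stage. -/
def step (s : ℕ) (H : Hist) : Hist :=
  Option.casesOn (motive := fun _ => Hist) (next s H) H fun k => (k, s + 1, wit H k) :: H

/-- The construction. -/
def hist (s : ℕ) : Hist := Nat.rec [] step s

/-- The requirement acting at stage `s`. -/
def act (s : ℕ) : Option ℕ := next s (hist s)

section Comp

variable {α : Type} [Primcodable α] {H : α → Hist} {k s i y : α → ℕ}

@[fun_prop] theorem c_last (hH : Computable H) (hk : Computable k) :
    Computable fun a => last (H a) (k a) := by
  unfold last; fun_prop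

@[fun_prop] theorem c_sat (hH : Computable H) (hk : Computable k) :
    Computable fun a => sat (H a) (k a) := by
  unfold sat; fun_prop

@[fun_prop] theorem c_mem (hH : Computable H) (hy : Computable y) :
    Computable fun a => mem (H a) (y a) := by
  unfold mem; fun_prop

@[fun_prop] theorem c_wit (hH : Computable H) (hk : Computable k) :
    Computable fun a => wit (H a) (k a) := by
  unfold wit; fun_prop

@[fun_prop] theorem c_low (hH : Computable H) (hi : Computable i) (hy : Computable y) :
    Computable fun a => low (H a) (i a) (y a) := by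
  unfold low; fun_prop

@[fun_prop] theorem c_vis (hs : Computable s) (hH : Computable H) (hk : Computable k) :
    Computable fun a => vis (s a) (H a) (k a) := by
  unfold vis; fun_prop

@[fun_prop] theorem c_att (hs : Computable s) (hH : Computable H) (hk : Computable k) :
    Computable fun a => att (s a) (H a) (k a) := by
  unfold att; fun_prop

@[fun_prop] theorem c_next (hs : Computable s) (hH : Computable H) :
    Computable fun a => next (s a) (H a) := by
  unfold next; fun_prop

theorem c_step : Computable₂ step :=
  Computable.option_casesOn (o := fun q : ℕ × Hist => next q.1 q.2) (f := fun q : ℕ × Hist => q.2)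
    (g := fun (q : ℕ × Hist) (k : ℕ) => (k, q.1 + 1, wit q.2 k) :: q.2) (by fun_prop) (by fun_prop)
    (show Computable fun r : (ℕ × Hist) × ℕ => (r.2, r.1.1 + 1, wit r.1.2 r.2) :: r.1.2 by
      fun_prop)

theorem c_hist : Computable hist :=
  Computable.nat_rec (f := fun s : ℕ => s) (g := fun _ => ([] : Hist))
    (h := fun _ (p : ℕ × Hist) => step p.1 p.2) Computable.id (Computable.const _)
    (c_step.comp (Computable.fst.comp Computable.snd) (Computable.snd.comp Computable.snd))

end Comp

theorem next_eq (s : ℕ) (H : Hist) : next s H = (List.range s).find? (att s H) := by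
  unfold next
  induction List.range s with
  | nil => rfl
  | cons a l ih => rw [List.foldr_cons, ih, List.find?_cons]; cases att s H a <;> rfl

theorem vis_iff (s : ℕ) (H : Hist) (k : ℕ) : vis s H k = true ↔ ∃ u < s,
    evaln s (Denumerable.ofNat Code k.unpair.2)
      (encode (seg (low H k.unpair.1) u, wit H k)) = some 0 := by
  unfold vis seg
  simp only [← List.mem_range]
  induction List.range s with
  | nil => simp
  | cons a l ih =>
    rw [List.foldr_cons, Bool.or_eq_true, ih, decide_eq_true_eq, List.exists_mem_cons_iff]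

theorem act_some {s k : ℕ} (h : act s = some k) :
    sat (hist s) k = false ∧ vis s (hist s) k = true := by
  rw [act, next_eq] at h
  have := List.find?_some h
  simpa [att] using this

theorem act_of_att {s k : ℕ} (hk : k < s) (h : att s (hist s) k = true) :
    ∃ j ≤ k, act s = some j := by
  rcases e : act s with - | j
  · rw [act, next_eq, List.find?_range_eq_none] at e
    have := e k hk
    simp [h] at this
  · refine ⟨j, ?_, rfl⟩
    rw [act, next_eq, List.find?_range_eq_some] at e
    by_contra hlt
    have := e.2.2 k (by omega)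
    simp [h] at this

theorem hist_none {s : ℕ} (h : act s = Option.none) : hist (s + 1) = hist s := by
  show step s (hist s) = _
  unfold step
  rw [show next s (hist s) = Option.none from h]

theorem hist_some {s k : ℕ} (h : act s = some k) :
    hist (s + 1) = (k, s + 1, wit (hist s) k) :: hist s := by
  show step s (hist s) = _
  unfold step
  rw [show next s (hist s) = some k from h]

theorem last_of_act {s j k : ℕ} (h : act s = some j) (hj : j < k) :
    last (hist (s + 1)) k = s + 1 := by
  rw [hist_some h]; simp [last, hj]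

theorem last_of_not {s k : ℕ} (h : ∀ j < k, act s ≠ some j) :
    last (hist (s + 1)) k = last (hist s) k := by
  rcases e : act s with - | j
  · rw [hist_none e]
  · have : ¬ j < k := fun hj => h j hj e
    rw [hist_some e]; simp [last, this]

theorem last_le (s k : ℕ) : last (hist s) k ≤ s := by
  induction s with
  | zero => exact le_rfl
  | succ s ih =>
    by_cases h : ∀ j < k, act s ≠ some j
    · rw [last_of_not h]; omega
    · push Not at h
      obtain ⟨j, hj, e⟩ := h
      rw [last_of_act e hj]

theorem last_mono (k : ℕ) {s t : ℕ} (h : s ≤ t) : last (hist s) k ≤ last (hist t) k := by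
  induction t, h using Nat.le_induction with
  | base => exact le_rfl
  | succ t _ ih =>
    by_cases h : ∀ j < k, act t ≠ some j
    · rw [last_of_not h]; exact ih
    · push Not at h
      obtain ⟨j, hj, e⟩ := h
      rw [last_of_act e hj]
      exact ih.trans ((last_le t k).trans (Nat.le_succ t))

theorem sat_of_act {s k : ℕ} (h : act s = some k) : sat (hist (s + 1)) k = true := by
  rw [hist_some h]; simp [sat]

theorem sat_of_lt {s j k : ℕ} (h : act s = some j) (hj : j < k) :
    sat (hist (s + 1)) k = false := by
  rw [hist_some h]; simp [sat, hj, hj.ne]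

theorem sat_of_not {s k : ℕ} (h : ∀ j ≤ k, act s ≠ some j) :
    sat (hist (s + 1)) k = sat (hist s) k := by
  rcases e : act s with - | j
  · rw [hist_none e]
  · have h1 : ¬ j ≤ k := fun hj => h j hj e
    have h2 : ¬ j < k := by omega
    have h3 : ¬ j = k := by omega
    rw [hist_some e]; simp [sat, h2, h3]

theorem mem_iff (s y : ℕ) :
    mem (hist s) y = true ↔ ∃ t < s, ∃ k, act t = some k ∧ wit (hist t) k = y := by
  induction s with
  | zero => simp [hist, mem]
  | succ s ih =>
    rw [Nat.exists_lt_succ_right, ← ih]
    rcases e : act s with - | j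
    · rw [hist_none e]; simp
    · rw [hist_some e]
      have : mem ((j, s + 1, wit (hist s) j) :: hist s) y =
        (decide (wit (hist s) j = y) || mem (hist s) y) := rfl
      rw [this]
      simp [or_comm]

theorem once {k s₀ t : ℕ} (h₀ : ∀ s, s₀ ≤ s → ∀ j < k, act s ≠ some j) (ht : s₀ ≤ t)
    (h : act t = some k) : ∀ s, t + 1 ≤ s → act s ≠ some k := by
  have h1 : ∀ s, t + 1 ≤ s → sat (hist s) k = true := by
    intro s hs
    induction s, hs using Nat.le_induction with
    | base => exact sat_of_act h
    | succ s hs ih =>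
      by_cases c : act s = some k
      · exact sat_of_act c
      · rw [sat_of_not, ih]
        intro j hj
        rcases hj.lt_or_eq with h2 | rfl
        · exact h₀ s (by omega) j h2
        · exact c
  intro s hs e
  have := (act_some e).1
  rw [h1 s hs] at this
  exact absurd this (by simp)

theorem finite_injury (k : ℕ) : ∃ s₀, ∀ s, s₀ ≤ s → ∀ j < k, act s ≠ some j := by
  induction k with
  | zero => exact ⟨0, fun _ _ _ h => absurd h (Nat.not_lt_zero _)⟩
  | succ k ih =>
    obtain ⟨s₀, h₀⟩ := ih
    by_cases c : ∃ t, s₀ ≤ t ∧ act t = some k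
    · obtain ⟨t, ht, e⟩ := c
      refine ⟨t + 1, fun s hs j hj => ?_⟩
      rcases (Nat.lt_succ_iff.1 hj).lt_or_eq with h2 | rfl
      · exact h₀ s (by omega) j h2
      · exact once h₀ ht e s hs
    · refine ⟨s₀, fun s hs j hj => ?_⟩
      rcases (Nat.lt_succ_iff.1 hj).lt_or_eq with h2 | rfl
      · exact h₀ s hs j h2
      · exact fun e => c ⟨s, hs, e⟩

theorem stable (k : ℕ) : ∃ l, (∀ s, l ≤ s → ∀ j < k, act s ≠ some j) ∧
    (∀ s, l ≤ s → last (hist s) k = l) ∧ sat (hist l) k = false := by
  classical
  have hex := finite_injury k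
  have h1 := Nat.find_spec hex
  have h2 : last (hist (Nat.find hex)) k = Nat.find hex ∧ sat (hist (Nat.find hex)) k = false := by
    rcases e : Nat.find hex with - | t
    · exact ⟨rfl, rfl⟩
    · have h3 := Nat.find_min hex (show t < Nat.find hex by omega)
      push Not at h3
      obtain ⟨s, hs, j, hj, e'⟩ := h3
      have : s = t := by
        by_contra hne
        exact h1 s (by omega) j hj e'
      subst this
      exact ⟨last_of_act e' hj, sat_of_lt e' hj⟩
  refine ⟨Nat.find hex, h1, fun s hs => ?_, h2.2⟩
  induction s, hs using Nat.le_induction with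
  | base => exact h2.1
  | succ s hs ih => rw [last_of_not (h1 s hs), ih]

open Classical in
/-- The `i`-th set of the chain. -/
noncomputable def V (i : ℕ) : ℕ → Bool := fun y => decide (∃ s, low (hist s) i y = true)

theorem V_iff {i y : ℕ} : V i y = true ↔
    y.unpair.1 < i ∧ ∃ t k, act t = some k ∧ wit (hist t) k = y := by
  have h0 : V i y = true ↔ ∃ s, low (hist s) i y = true := by simp [V]
  rw [h0]
  simp only [low, decide_eq_true_eq, Bool.and_eq_true, mem_iff]
  constructor
  · rintro ⟨s, ⟨t, -, h⟩, h2⟩
    exact ⟨h2, t, h⟩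
  · rintro ⟨h2, t, h⟩
    exact ⟨t + 1, ⟨t, Nat.lt_succ_self t, h⟩, h2⟩

theorem low_iff {s i y : ℕ} : low (hist s) i y = true ↔
    y.unpair.1 < i ∧ ∃ t < s, ∃ k, act t = some k ∧ wit (hist t) k = y := by
  simp only [low, decide_eq_true_eq, Bool.and_eq_true, mem_iff]
  exact and_comm

theorem V_re (i : ℕ) : REPred fun y => V i y = true := by
  have h1 : Computable fun p : ℕ × ℕ => low (hist p.2) i p.1 :=
    c_low (c_hist.comp Computable.snd) (Computable.const i) Computable.fst
  have h2 : REPred fun p : ℕ × ℕ => low (hist p.2) i p.1 = true :=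
    (ComputablePred.computable_iff.2 ⟨_, h1, rfl⟩).to_re
  exact (re_exists (R := fun y s => low (hist s) i y = true) h2).of_eq fun y => by simp [V]

theorem V_le {O : Set (ℕ →. ℕ)} {i j : ℕ} (hij : i ≤ j) (h : ComputableIn O (V j)) :
    ComputableIn O (V i) := by
  have h1 : Computable fun y : ℕ => decide (y.unpair.1 < i) := by fun_prop
  refine cin_of_eq (cin_comp₂ (f := and) Primrec.and.computableIn₂ h h1.computableIn) fun y => ?_
  rw [Bool.eq_iff_iff, Bool.and_eq_true, V_iff, V_iff, decide_eq_true_eq]
  constructor
  · rintro ⟨⟨-, h2⟩, h3⟩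
    exact ⟨h3, h2⟩
  · rintro ⟨h3, h2⟩
    exact ⟨⟨by omega, h2⟩, h3⟩

theorem seg_stable (i u : ℕ) : ∃ s₀, ∀ s, s₀ ≤ s → seg (low (hist s) i) u = seg (V i) u := by
  induction u with
  | zero => exact ⟨0, fun _ _ => rfl⟩
  | succ u ih =>
    obtain ⟨s₀, h₀⟩ := ih
    by_cases c : V i u = true
    · obtain ⟨h1, t, h2⟩ := V_iff.1 c
      refine ⟨max s₀ (t + 1), fun s hs => ?_⟩
      rw [seg_succ, seg_succ, h₀ s (by omega), c, low_iff.2 ⟨h1, t, by omega, h2⟩]
    · refine ⟨s₀, fun s hs => ?_⟩
      have h1 : ¬ low (hist s) i u = true := fun h => by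
        obtain ⟨h1, t, -, h2⟩ := low_iff.1 h
        exact c (V_iff.2 ⟨h1, t, h2⟩)
      rw [seg_succ, seg_succ, h₀ s hs, Bool.eq_false_iff.2 c, Bool.eq_false_iff.2 h1]

theorem V_not_le (i : ℕ) : ¬ ComputableIn {orc (V i)} (V (i + 1)) := by
  intro h
  obtain ⟨F, hF, e⟩ := use_principle (RecursiveIn.iff_nat.1 (orc_iff.2 h))
  obtain ⟨c, hc⟩ := exists_code.1 hF.partrec
  have hev : ∀ σ n v, v ∈ F σ n ↔ ∃ s, evaln s c (encode (σ, n)) = some v := by
    intro σ n v
    have h1 : eval c (encode (σ, n)) = F σ n := by
      rw [hc]
      simp only [encodek, Part.coe_some, Part.bind_some]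
      exact Part.map_id' (fun _ => rfl) _
    rw [← h1, evaln_complete]
    rfl
  set k := Nat.pair i (encode c) with hk
  have k1 : k.unpair.1 = i := by simp [hk]
  have k2 : Denumerable.ofNat Code k.unpair.2 = c := by simp [hk]
  obtain ⟨l, h1, h2, h3⟩ := stable k
  have hw : ∀ s, l ≤ s → wit (hist s) k = Nat.pair i (Nat.pair k l) := fun s hs => by
    rw [wit, h2 s hs, k1]
  by_cases c1 : ∃ t, l ≤ t ∧ act t = some k
  · obtain ⟨t, ht, e1⟩ := c1
    obtain ⟨u, hu, e2⟩ := (vis_iff _ _ _).1 (act_some e1).2
    rw [k1, k2, hw t ht] at e2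
    have a1 : seg (low (hist t) i) u = seg (V i) u := by
      refine seg_congr.2 fun y hy => ?_
      rw [Bool.eq_iff_iff, low_iff, V_iff]
      refine and_congr_right fun b1 => ⟨fun ⟨t', _, b⟩ => ⟨t', b⟩, fun ⟨t', j, b2, b3⟩ => ?_⟩
      refine ⟨t', ?_, j, b2, b3⟩
      by_contra hlt
      rcases (not_lt.1 hlt).eq_or_lt with rfl | b4
      · rw [e1] at b2
        obtain rfl : k = j := Option.some.inj b2
        rw [hw t ht] at b3
        rw [← b3] at b1
        simp at b1
      · have b5 : k < j := by
          rcases lt_trichotomy j k with b | rfl | b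
          · exact absurd b2 (h1 t' (by omega) j b)
          · exact absurd b2 (once h1 ht e1 t' b4)
          · exact b
        have b6 : t + 1 ≤ last (hist t') j := (last_of_act e1 b5).ge.trans (last_mono j b4)
        have b7 : last (hist t') j ≤ y := by
          rw [← b3]
          exact (Nat.right_le_pair _ _).trans (Nat.right_le_pair _ _)
        omega
    rw [a1] at e2
    have a2 : (0 : ℕ) ∈ orc (V (i + 1)) (Nat.pair i (Nat.pair k l)) :=
      (e _ _).2 ⟨u, (hev _ _ _).2 ⟨t, e2⟩⟩
    have a3 : V (i + 1) (Nat.pair i (Nat.pair k l)) = true :=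
      V_iff.2 ⟨by simp, t, k, e1, hw t ht⟩
    simp [orc, a3] at a2
  · have a1 : V (i + 1) (Nat.pair i (Nat.pair k l)) = false := by
      rw [Bool.eq_false_iff]
      intro b
      obtain ⟨-, t, j, b2, b3⟩ := V_iff.1 b
      have b4 := (Nat.pair_eq_pair.1 (Nat.pair_eq_pair.1 b3).2)
      obtain ⟨rfl, b5⟩ := b4
      exact c1 ⟨t, b5 ▸ last_le t _, b2⟩
    obtain ⟨u, hu⟩ := (e (Nat.pair i (Nat.pair k l)) 0).1 (by simp [orc, a1])
    obtain ⟨s₁, hs₁⟩ := (hev _ _ _).1 hu
    obtain ⟨s₂, hs₂⟩ := seg_stable i u
    have a2 : ∀ s, l ≤ s → sat (hist s) k = false := by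
      intro s hs
      induction s, hs using Nat.le_induction with
      | base => exact h3
      | succ s hs ih =>
        rw [sat_of_not, ih]
        intro j hj
        rcases hj.lt_or_eq with b | rfl
        · exact h1 s hs j b
        · exact fun b => c1 ⟨s, hs, b⟩
    set s := l + s₁ + s₂ + u + k + 1 with hs
    have a3 : att s (hist s) k = true := by
      rw [att, a2 s (by omega), Bool.not_false, Bool.true_and, vis_iff]
      refine ⟨u, by omega, ?_⟩
      rw [k1, k2, hw s (by omega), hs₂ s (by omega)]
      exact evaln_mono (by omega) hs₁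
    obtain ⟨j, hj, b⟩ := act_of_att (by omega) a3
    rcases hj.lt_or_eq with b1 | rfl
    · exact h1 s (by omega) j b1 b
    · exact c1 ⟨s, by omega, b⟩

end Pool.Agent.Lib.MP_5205a5_lc.FM
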