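import Pool.Agent.Lib.MP_5205a5_lc.Copies
import Pool.Agent.Shared.Oracle.FunProp

/-!
For every recursively enumerable set there is a computable copy of the finite-cofinite algebra
whose set of atoms has the same Turing degree.
-/

namespace Pool.Agent.Lib.MP_5205a5_lc

open Pool.Agent.Shared.Oracle Pool.Agent.Shared.Oracle.FP

@[fun_prop] theorem c_any {α β : Type} [Primcodable α] [Primcodable β] {l : α → List β}
    {p : α → β → Bool} (hl : Computable l) (hp : Computable fun q : α × β => p q.1 q.2) :
    Computable fun a => (l a).any (p a) :=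
  (c_not (c_all (p := fun a b => !p a b) hl (c_not hp))).of_eq fun a => by
    induction l a <;> simp_all

@[fun_prop] theorem c_xor {α : Type} [Primcodable α] {f g : α → Bool} (hf : Computable f)
    (hg : Computable g) : Computable fun a => xor (f a) (g a) :=
  prim_xor.to_comp.comp hf hg

section

variable {h : ℕ → Bool} {o : ℕ → ℕ}

theorem atom_iff (H1 : ∀ m, h m = true → h (o m) = false)
    (H2 : ∀ e, {m | h m = true ∧ o m = e}.Finite)
    (H3 : ∀ m m', h m = true → h m' = true → o m = o m' → m = m') (x : ℕ) :
    dec H2 x ∈ atoms ↔ x.testBit 0 = false ∧ (∃ t < x, ∀ m < x, fpart h o x m = decide (m = t)) ∧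
      ∀ e < x, x.testBit (e + 1) = true → (∃ m, h m = true ∧ o m = e) →
        ∃ m < x, h m = true ∧ o m = e := by
  constructor
  · rintro ⟨t, ht⟩
    have a1 : ∀ m, memb h o x m = decide (m = t) := by
      intro m
      have := Set.ext_iff.1 (congrArg Subtype.val ht) m
      simp only [fin, Finset.coe_singleton, Set.mem_singleton_iff, dec, Set.mem_ofPred_eq] at this
      rw [Bool.eq_iff_iff, decide_eq_true_eq, this]
    have a2 : x.testBit 0 = false := by
      obtain ⟨m, hm⟩ := ((fpart_finite H2 x).union (Set.finite_singleton t)).exists_notMem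
      simp only [Set.mem_union, Set.mem_ofPred_eq, not_or, Bool.not_eq_true,
        Set.mem_singleton_iff] at hm
      have := a1 m
      rwa [memb, hm.1, Bool.xor_false, decide_eq_false hm.2] at this
    have a3 : ∀ m, fpart h o x m = decide (m = t) := fun m => by
      rw [← a1, memb, a2, Bool.false_xor]
    have a4 : t < x := by
      by_contra hlt
      have b1 := a3 t
      rw [fpart, testBit_of_le (show x ≤ t + 1 by omega), Bool.false_xor, decide_eq_true rfl,
        Bool.and_eq_true] at b1
      have b2 := a3 (o t)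
      rw [fpart, H1 t b1.1, b1.2] at b2
      have b3 : o t = t := by simpa using b2
      have b4 := H1 t b1.1
      rw [b3, b1.1] at b4
      exact absurd b4 (by simp)
    refine ⟨a2, ⟨t, a4, fun m _ => a3 m⟩, ?_⟩
    rintro e - he ⟨m, b1, rfl⟩
    refine ⟨m, ?_, b1, rfl⟩
    by_contra hlt
    have b2 := a3 m
    rw [fpart, testBit_of_le (show x ≤ m + 1 by omega), b1, he] at b2
    have b3 : m = t := by simpa using b2
    omega
  · rintro ⟨a2, ⟨t, a4, a3⟩, a5⟩
    refine ⟨t, Subtype.ext ?_⟩
    ext m
    simp only [fin, Finset.coe_singleton, Set.mem_singleton_iff, dec, Set.mem_ofPred_eq, memb, a2,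
      Bool.false_xor]
    by_cases c : m < x
    · rw [a3 m c, decide_eq_true_eq]
    · refine ⟨fun b => by omega, fun b => ?_⟩
      rw [fpart, testBit_of_le (show x ≤ m + 1 by omega), Bool.false_xor, Bool.and_eq_true] at b
      have b1 : o m < x := by
        by_contra hlt
        have := b.2
        rw [testBit_of_le (show x ≤ o m + 1 by omega)] at this
        exact absurd this (by simp)
      obtain ⟨m', b2, b3, b4⟩ := a5 _ b1 b.2 ⟨m, b.1, rfl⟩
      have := H3 m m' b.1 b3 b4.symm
      omega

theorem cin_atoms {O : Set (ℕ →. ℕ)} (hh : Computable h) (ho : Computable o)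
    (H1 : ∀ m, h m = true → h (o m) = false) (H2 : ∀ e, {m | h m = true ∧ o m = e}.Finite)
    (H3 : ∀ m m', h m = true → h m' = true → o m = o m' → m = m') {I : ℕ → Bool}
    (hI : ∀ e, I e = true ↔ ∃ m, h m = true ∧ o m = e) (hIO : ComputableIn O I) :
    ComputableIn O (ind {x | dec H2 x ∈ atoms}) := by
  let Q : ℕ × List Bool → Bool := fun r => (!r.1.testBit 0) &&
    (((List.range r.1).any fun t => (List.range r.1).all fun m =>
      decide (fpart h o r.1 m = decide (m = t))) &&
    (List.range r.1).all fun e => (!r.1.testBit (e + 1)) || ((!r.2.getD e false) ||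
      (List.range r.1).any fun m => h m && decide (o m = e)))
  have hfp : Computable fun r : ℕ × ℕ => fpart h o r.1 r.2 :=
    c_xor (by fun_prop) (c_and (hh.comp Computable.snd)
      (c_testBit Computable.fst (c_add (ho.comp Computable.snd) (c_const 1))))
  have q1 : Computable fun r : (ℕ × ℕ) × ℕ =>
      decide (fpart h o r.1.1 r.2 = decide (r.2 = r.1.2)) :=
    c_decide_eq (f := fun r : (ℕ × ℕ) × ℕ => fpart h o r.1.1 r.2)
      (g := fun r : (ℕ × ℕ) × ℕ => decide (r.2 = r.1.2))
      (hfp.comp (g := fun r : (ℕ × ℕ) × ℕ => (r.1.1, r.2)) (by fun_prop))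
      (c_decide_eq Computable.snd (Computable.snd.comp Computable.fst))
  have q2 : Computable fun r : ℕ × ℕ => (List.range r.1).all fun m =>
      decide (fpart h o r.1 m = decide (m = r.2)) :=
    c_all (p := fun (r : ℕ × ℕ) m => decide (fpart h o r.1 m = decide (m = r.2))) (by fun_prop) q1
  have q3 : Computable fun x : ℕ => (List.range x).any fun t => (List.range x).all fun m =>
      decide (fpart h o x m = decide (m = t)) :=
    c_any (p := fun (x : ℕ) t => (List.range x).all fun m =>
      decide (fpart h o x m = decide (m = t))) (by fun_prop) q2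
  have q4 : Computable fun r : ℕ × ℕ => (List.range r.1).any fun m => h m && decide (o m = r.2) :=
    c_any (p := fun (r : ℕ × ℕ) m => h m && decide (o m = r.2)) (by fun_prop)
      (c_and (hh.comp Computable.snd) (c_decide_eq (ho.comp Computable.snd) (by fun_prop)))
  have q5 : Computable fun r : (ℕ × List Bool) × ℕ => (!r.1.1.testBit (r.2 + 1)) ||
      ((!r.1.2.getD r.2 false) || (List.range r.1.1).any fun m => h m && decide (o m = r.2)) :=
    c_or (by fun_prop) (c_or (by fun_prop)
      (q4.comp (g := fun r : (ℕ × List Bool) × ℕ => (r.1.1, r.2)) (by fun_prop)))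
  have hQ : Computable Q :=
    c_and (by fun_prop) (c_and (q3.comp Computable.fst)
      (c_all (p := fun (r : ℕ × List Bool) e => (!r.1.testBit (e + 1)) || ((!r.2.getD e false) ||
        (List.range r.1).any fun m => h m && decide (o m = e))) (by fun_prop) q5))
  refine cin_of_eq (cin_comp (g := fun x : ℕ => (x, seg I x)) hQ.computableIn
    (cin_pair ComputableIn.id (cin_seg hIO))) fun x => ?_
  rw [Bool.eq_iff_iff, ind_iff, Set.mem_ofPred_eq, atom_iff H1 H2 H3]
  simp only [Q, Bool.and_eq_true, Bool.not_eq_true', List.any_eq_true, List.all_eq_true,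
    List.mem_range, decide_eq_true_eq, Bool.or_eq_true]
  refine and_congr_right fun _ => and_congr_right fun _ => forall₂_congr fun e he => ?_
  rw [List.getD_eq_getElem?_getD, seg_getElem?, if_pos he, Option.getD_some, ← hI]
  cases x.testBit (e + 1) <;> cases I e <;> simp

end

theorem exists_copy_re {A : ℕ → Bool} (hA : REPred fun n => A n = true) :
    ∃ ν : FC → ℕ, IsComputableCopy ν ∧
      (∀ O : Set (ℕ →. ℕ), ComputableIn O A → ComputableIn O (ind (ν '' atoms))) ∧
      ∀ O : Set (ℕ →. ℕ), ComputableIn O (ind (ν '' atoms)) → ComputableIn O A := by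
  classical
  obtain ⟨q, hq, eq⟩ := re_normal hA
  let ev : ℕ → ℕ → Bool := fun n t => decide (∃ s < t, q n s)
  have hev : Primrec₂ ev :=
    (prim_exists_lt (f := fun r : ℕ × ℕ => r.2) (R := fun s (r : ℕ × ℕ) => q r.1 s) Primrec.snd
      (hq.comp (Primrec.fst.comp Primrec.snd) Primrec.fst)).decide
  have hmono : ∀ n {s t}, s ≤ t → ev n s = true → ev n t = true := by
    intro n s t hst h
    simp only [ev, decide_eq_true_eq] at h ⊢
    obtain ⟨u, hu, h⟩ := h
    exact ⟨u, hu.trans_le hst, h⟩
  have hA' : ∀ n, A n = true ↔ ∃ t, ev n t = true := by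
    intro n
    rw [eq]
    simp only [ev, decide_eq_true_eq]
    exact ⟨fun ⟨t, ht⟩ => ⟨t + 1, t, Nat.lt_succ_self t, ht⟩, fun ⟨_, t, _, ht⟩ => ⟨t, ht⟩⟩
  let h : ℕ → Bool := fun m => decide (m % 2 = 1) &&
    (ev (m / 2).unpair.1 ((m / 2).unpair.2 + 1) && !ev (m / 2).unpair.1 (m / 2).unpair.2)
  let o : ℕ → ℕ := fun m => 2 * (m / 2).unpair.1
  have hu : Primrec fun m : ℕ => (m / 2).unpair :=
    Primrec.unpair.comp (Primrec.nat_div.comp Primrec.id (.const 2))
  have hh : Primrec h := by
    have a1 : Primrec fun m : ℕ => decide (m % 2 = 1) :=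
      (Primrec.eq.comp (Primrec.nat_mod.comp Primrec.id (.const 2)) (.const 1)).decide
    have a2 := hev.comp (Primrec.fst.comp hu) (Primrec.succ.comp (Primrec.snd.comp hu))
    have a3 := hev.comp (Primrec.fst.comp hu) (Primrec.snd.comp hu)
    have a4 := Primrec.and.comp a1 (Primrec.and.comp a2 (Primrec.not.comp a3))
    exact a4
  have ho : Primrec o := Primrec.nat_double.comp (Primrec.fst.comp hu)
  have H1 : ∀ m, h m = true → h (o m) = false := fun m _ => by simp [h, o]
  have H3 : ∀ m m', h m = true → h m' = true → o m = o m' → m = m' := by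
    intro m m' a1 b1 a2
    simp only [h, o, Bool.and_eq_true, decide_eq_true_eq, Bool.not_eq_true'] at a1 a2 b1
    have e1 : (m / 2).unpair.1 = (m' / 2).unpair.1 := by omega
    have e2 : (m / 2).unpair.2 = (m' / 2).unpair.2 := by
      rw [e1] at a1
      rcases lt_trichotomy (m / 2).unpair.2 (m' / 2).unpair.2 with c | c | c
      · have := hmono _ c a1.2.1
        rw [b1.2.2] at this; simp at this
      · exact c
      · have := hmono _ c b1.2.1
        rw [a1.2.2] at this; simp at this
    have e3 : m / 2 = m' / 2 := by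
      rw [← Nat.pair_unpair (m / 2), e1, e2, Nat.pair_unpair]
    omega
  have H2 : ∀ e, {m | h m = true ∧ o m = e}.Finite := by
    intro e
    apply Set.Subsingleton.finite
    rintro m ⟨a1, a2⟩ m' ⟨b1, b2⟩
    exact H3 m m' a1 b1 (a2.trans b2.symm)
  have himg : ∀ n, A n = true ↔ ∃ m, h m = true ∧ o m = 2 * n := by
    intro n
    rw [hA']
    constructor
    · intro hex
      have c0 : Nat.find hex ≠ 0 := by
        intro c
        have := Nat.find_spec hex
        rw [c] at this
        simp [ev] at this
      obtain ⟨t, ht⟩ := Nat.exists_eq_succ_of_ne_zero c0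
      have c1 : ev n (t + 1) = true := by
        have := Nat.find_spec hex
        rwa [ht] at this
      have c2 : ev n t = false := by
        have := Nat.find_min hex (show t < Nat.find hex by omega)
        simpa using this
      have c3 : (2 * Nat.pair n t + 1) / 2 = Nat.pair n t := by omega
      exact ⟨2 * Nat.pair n t + 1, by simp [h, c3, c1, c2], by simp [o, c3]⟩
    · rintro ⟨m, c⟩
      simp only [h, o, Bool.and_eq_true, decide_eq_true_eq] at c
      have e1 : (m / 2).unpair.1 = n := by omega
      exact ⟨_, e1 ▸ c.1.2.1⟩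
  obtain ⟨ν, hν, hat⟩ := exists_copy hh ho H1 H2
  have hset : ν '' atoms = {x | dec H2 x ∈ atoms} := Set.ext hat
  refine ⟨ν, hν, fun O hO => ?_, fun O hO => ?_⟩
  · rw [hset]
    refine cin_atoms hh.to_comp ho.to_comp H1 H2 H3
      (I := fun e => decide (e % 2 = 0) && A (e / 2)) (fun e => ?_) ?_
    · rw [Bool.and_eq_true, decide_eq_true_eq, himg]
      constructor
      · rintro ⟨a, m, b1, b2⟩
        exact ⟨m, b1, by omega⟩
      · rintro ⟨m, b1, b2⟩
        have : e % 2 = 0 := by simp only [o] at b2; omega
        exact ⟨this, m, b1, by omega⟩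
    · have a1 : Computable fun e : ℕ => decide (e % 2 = 0) := by fun_prop
      have a2 : Computable fun e : ℕ => e / 2 := by fun_prop
      exact cin_comp₂ (f := and) Primrec.and.computableIn₂ a1.computableIn
        (cin_comp (f := A) hO a2.computableIn)
  · have hdec : ∀ n m, m ∈ (dec H2 (2 ^ (2 * n + 1))).1 ↔
        m = 2 * n ∨ (h m = true ∧ o m = 2 * n) := by
      intro n m
      simp only [dec, memb, fpart, Nat.testBit_two_pow, Set.mem_ofPred_eq]
      by_cases c1 : m = 2 * n
      · have : h m = false := by simp [h, c1]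
        simp [← c1, this]
      · by_cases c2 : o m = 2 * n
        · simp [c1, Ne.symm c1, c2]
        · simp [c1, Ne.symm c1, c2, Ne.symm c2]
    have hkey : ∀ n, dec H2 (2 ^ (2 * n + 1)) ∈ atoms ↔ ¬ A n = true := by
      intro n
      rw [himg]
      constructor
      · rintro ⟨u, hu⟩ ⟨m, c1, c2⟩
        have d1 := (hdec n (2 * n)).2 (Or.inl rfl)
        have d2 := (hdec n m).2 (Or.inr ⟨c1, c2⟩)
        rw [← hu] at d1 d2
        simp only [fin, Finset.coe_singleton, Set.mem_singleton_iff] at d1 d2
        have := H1 m c1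
        rw [c2, d1, ← d2, c1] at this
        exact absurd this (by simp)
      · intro hex
        refine ⟨2 * n, Subtype.ext ?_⟩
        ext m
        rw [hdec]
        simp only [fin, Finset.coe_singleton, Set.mem_singleton_iff]
        exact ⟨Or.inl, fun c => c.resolve_right fun c => hex ⟨m, c⟩⟩
    have a1 : Computable fun n : ℕ => 2 ^ (2 * n + 1) := by fun_prop
    refine cin_of_eq (cin_comp (f := not) Primrec.not.computableIn
      (cin_comp (f := ind (ν '' atoms)) hO a1.computableIn)) fun n => ?_
    rw [Bool.eq_iff_iff, Bool.not_eq_true', Bool.eq_false_iff, Ne, ind_iff, hat, hkey, not_not]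

end Pool.Agent.Lib.MP_5205a5_lc
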