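import Pool.Agent.Shared.Oracle.FunProp

/-!
Predicates that are recursively enumerable in an oracle.
-/

namespace Pool.Agent.Lib.MP_5205a5_lc

open Encodable Pool.Agent.Shared.Oracle Pool.Agent.Shared.Oracle.FP

variable {α β : Type} [Primcodable α] [Primcodable β] {B : ℕ → Bool}

/-- `P` is recursively enumerable in `B`. -/
def REIn (B : ℕ → Bool) (P : α → Prop) : Prop :=
  ∃ R : α → List Bool → Prop, REPred (fun p : α × List Bool => R p.1 p.2) ∧
    ∀ a, P a ↔ ∃ l, R a (seg B l)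

theorem REIn.of_eq {P Q : α → Prop} (h : REIn B P) (e : ∀ a, P a ↔ Q a) : REIn B Q := by
  obtain ⟨R, h1, h2⟩ := h
  exact ⟨R, h1, fun a => (e a).symm.trans (h2 a)⟩

theorem rein_of_re {P : α → Prop} (h : REPred P) : REIn B P :=
  ⟨fun a _ => P a, re_comp h Computable.fst, fun _ => by simp⟩

theorem REIn.mono_form {P : α → Prop} (h : REIn B P) :
    ∃ R : α → List Bool → Prop, REPred (fun p : α × List Bool => R p.1 p.2) ∧
      (∀ a {l l'}, l ≤ l' → R a (seg B l) → R a (seg B l')) ∧ ∀ a, P a ↔ ∃ l, R a (seg B l) := by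
  obtain ⟨R, h1, h2⟩ := h
  refine ⟨fun a τ => ∃ u, u ≤ τ.length ∧ R a (τ.take u), ?_, ?_, fun a => ?_⟩
  · refine re_exists (R := fun (p : α × List Bool) u => u ≤ p.2.length ∧ R p.1 (p.2.take u))
      (re_and (re_of_prim (Primrec.nat_le.comp Primrec.snd
        (Primrec.list_length.comp (Primrec.snd.comp Primrec.fst)))) ?_)
    exact re_comp h1 (f := fun r : (α × List Bool) × ℕ => (r.1.1, r.1.2.take r.2)) (by fun_prop)
  · rintro a l l' hl ⟨u, hu, h⟩
    rw [seg_length] at hu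
    rw [seg_take B hu] at h
    exact ⟨u, by simpa using hu.trans hl, by rwa [seg_take B (hu.trans hl)]⟩
  · rw [h2]
    constructor
    · rintro ⟨l, h⟩
      exact ⟨l, l, by simp, by rwa [seg_take B le_rfl]⟩
    · rintro ⟨l, u, hu, h⟩
      rw [seg_length] at hu
      exact ⟨u, by rwa [seg_take B hu] at h⟩

theorem REIn.comp {P : β → Prop} (h : REIn B P) {f : α → β} (hf : Computable f) :
    REIn B fun a => P (f a) := by
  obtain ⟨R, h1, h2⟩ := h
  exact ⟨fun a τ => R (f a) τ, re_comp h1 (f := fun p : α × List Bool => (f p.1, p.2))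
    ((hf.comp Computable.fst).pair Computable.snd), fun a => h2 _⟩

theorem REIn.and {P Q : α → Prop} (hP : REIn B P) (hQ : REIn B Q) :
    REIn B fun a => P a ∧ Q a := by
  obtain ⟨R, h1, m1, h2⟩ := hP.mono_form
  obtain ⟨R', h3, m2, h4⟩ := hQ.mono_form
  refine ⟨fun a τ => R a τ ∧ R' a τ, re_and h1 h3, fun a => ?_⟩
  beta_reduce
  rw [h2, h4]
  constructor
  · rintro ⟨⟨l, a1⟩, l', a2⟩
    exact ⟨max l l', m1 a (le_max_left _ _) a1, m2 a (le_max_right _ _) a2⟩
  · rintro ⟨l, a1, a2⟩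
    exact ⟨⟨l, a1⟩, l, a2⟩

theorem REIn.or {P Q : α → Prop} (hP : REIn B P) (hQ : REIn B Q) :
    REIn B fun a => P a ∨ Q a := by
  obtain ⟨R, h1, h2⟩ := hP
  obtain ⟨R', h3, h4⟩ := hQ
  refine ⟨fun a τ => R a τ ∨ R' a τ, re_or h1 h3, fun a => ?_⟩
  beta_reduce
  rw [h2, h4, exists_or]

theorem rein_exists {P : α → β → Prop} (h : REIn B fun p : α × β => P p.1 p.2) :
    REIn B fun a => ∃ b, P a b := by
  obtain ⟨R, h1, h2⟩ := h
  refine ⟨fun a τ => ∃ b, R (a, b) τ, re_exists (R := fun (p : α × List Bool) b => R (p.1, b) p.2)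
    (re_comp h1 (f := fun r : (α × List Bool) × β => ((r.1.1, r.2), r.1.2)) (by fun_prop)),
    fun a => ?_⟩
  rw [exists_comm]
  exact exists_congr fun b => h2 (a, b)

theorem rein_forall_real {w : α → List Bool → Prop}
    (h : REIn B fun p : α × List Bool => w p.1 p.2) :
    REIn B fun a => ∀ X : ℕ → Bool, ∃ l, w a (seg X l) := by
  obtain ⟨R, h1, m1, h2⟩ := h.mono_form
  refine ⟨fun a τ => ∀ X : ℕ → Bool, ∃ l, R (a, seg X l) τ,
    re_forall_real (w := fun (p : α × List Bool) σ => R (p.1, σ) p.2)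
      (re_comp h1 (f := fun r : (α × List Bool) × List Bool => ((r.1.1, r.2), r.1.2))
        (by fun_prop)), fun a => ?_⟩
  constructor
  · intro h
    by_contra hcon
    push Not at hcon
    let K : ℕ → Set (ℕ → Bool) := fun L => {X | ∀ l, ¬ R (a, seg X l) (seg B L)}
    have hK : ∀ L, IsClosed (K L) := by
      intro L
      have : K L = ⋂ l : ℕ, {X | ¬ R (a, seg X l) (seg B L)} := by
        ext X; simp [K]
      rw [this]
      exact isClosed_iInter fun l =>
        (isClopen_seg (fun σ => ¬ R (a, σ) (seg B L)) l).isClosed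
    obtain ⟨X, hX⟩ := IsCompact.nonempty_iInter_of_sequence_nonempty_isCompact_isClosed K
      (fun L X hX l hl => hX l (m1 _ (Nat.le_succ L) hl)) hcon (hK 0).isCompact hK
    obtain ⟨l, hl⟩ := h X
    obtain ⟨L, hL⟩ := (h2 (a, seg X l)).1 hl
    exact Set.mem_iInter.1 hX L l hL
  · rintro ⟨L, hL⟩ X
    obtain ⟨l, hl⟩ := hL X
    exact ⟨l, (h2 (a, seg X l)).2 ⟨L, hl⟩⟩

theorem rein_cin {f : α → β} (hf : ComputableIn {orc B} f) {P : β → Prop} (hP : REPred P) :
    REIn B fun a => P (f a) := by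
  obtain ⟨F, hF, e⟩ := use_principle hf
  have e' : ∀ a b, f a = b ↔ ∃ k, encode b ∈ F (seg B k) (encode a) := by
    intro a b
    rw [← e]
    simp [eq_comm]
  refine ⟨fun a τ => ∃ b, encode b ∈ F τ (encode a) ∧ P b, ?_, fun a => ?_⟩
  · refine re_exists (R := fun (p : α × List Bool) b => encode b ∈ F p.2 (encode p.1) ∧ P b)
      (re_and ?_ (re_comp hP Computable.snd))
    have h2 : REPred fun z : (List Bool × ℕ) × ℕ => z.2 ∈ F z.1.1 z.1.2 :=
      re_mem (f := fun z : List Bool × ℕ => F z.1 z.2) hF.partrec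
    exact re_comp h2 (f := fun r : (α × List Bool) × β => ((r.1.2, encode r.1.1), encode r.2))
      (by fun_prop)
  · constructor
    · intro h
      obtain ⟨k, hk⟩ := (e' a _).1 rfl
      exact ⟨k, _, hk, h⟩
    · rintro ⟨k, b, hk, h⟩
      rwa [(e' a b).2 ⟨k, hk⟩]

theorem cin_of_rein {X : ℕ → Bool} (h1 : REIn B fun n => X n = true)
    (h0 : REIn B fun n => X n = false) : ComputableIn {orc B} X := by
  classical
  obtain ⟨R1, a1, e1⟩ := h1
  obtain ⟨R0, a0, e0⟩ := h0
  obtain ⟨q1, b1, f1⟩ := re_normal a1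
  obtain ⟨q0, b0, f0⟩ := re_normal a0
  have hB : ComputableIn {orc B} B := cin_orc rfl
  have hs : ComputableIn {orc B} fun r : ℕ × ℕ => ((r.1, seg B r.2.unpair.1), r.2.unpair.2) :=
    cin_pair (cin_pair ComputableIn.fst (cin_comp (f := seg B) (cin_seg hB)
      (Primrec.fst.comp (Primrec.unpair.comp Primrec.snd)).computableIn))
      (Primrec.snd.comp (Primrec.unpair.comp Primrec.snd)).computableIn
  have c1 : ComputableIn {orc B} fun r : ℕ × ℕ =>
      decide (q1 (r.1, seg B r.2.unpair.1) r.2.unpair.2) :=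
    cin_comp (f := fun z : (ℕ × List Bool) × ℕ => decide (q1 z.1 z.2)) b1.decide.computableIn hs
  have c0 : ComputableIn {orc B} fun r : ℕ × ℕ =>
      decide (q0 (r.1, seg B r.2.unpair.1) r.2.unpair.2) :=
    cin_comp (f := fun z : (ℕ × List Bool) × ℕ => decide (q0 z.1 z.2)) b0.decide.computableIn hs
  have c2 : ComputableIn₂ {orc B} fun n t : ℕ =>
      decide (q1 (n, seg B t.unpair.1) t.unpair.2) || decide (q0 (n, seg B t.unpair.1) t.unpair.2) :=
    cin_comp₂ (f := or) Primrec.or.computableIn₂ c1 c0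
  have hex : ∀ n, ∃ t : ℕ, (decide (q1 (n, seg B t.unpair.1) t.unpair.2) ||
      decide (q0 (n, seg B t.unpair.1) t.unpair.2)) = true := by
    intro n
    cases hx : X n
    · obtain ⟨l, hl⟩ := (e0 n).1 hx
      obtain ⟨t, ht⟩ := (f0 (n, seg B l)).1 hl
      exact ⟨Nat.pair l t, by simp [ht]⟩
    · obtain ⟨l, hl⟩ := (e1 n).1 hx
      obtain ⟨t, ht⟩ := (f1 (n, seg B l)).1 hl
      exact ⟨Nat.pair l t, by simp [ht]⟩
  refine cin_of_eq (cin_comp (g := fun n => (n, Nat.find (hex n))) c1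
    (cin_pair ComputableIn.id (cin_find c2 hex))) fun n => ?_
  have h := Nat.find_spec (hex n)
  generalize Nat.find (hex n) = t at h ⊢
  rw [Bool.or_eq_true, decide_eq_true_eq, decide_eq_true_eq] at h
  rw [Bool.eq_iff_iff, decide_eq_true_eq]
  refine ⟨fun h1 => (e1 n).2 ⟨_, (f1 (n, _)).2 ⟨_, h1⟩⟩, fun h1 => h.resolve_right fun h2 => ?_⟩
  have : X n = false := (e0 n).2 ⟨_, (f0 (n, _)).2 ⟨_, h2⟩⟩
  rw [h1] at this
  exact absurd this (by simp)

end Pool.Agent.Lib.MP_5205a5_lc
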