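import Pool.Agent.Lib.MP_5205a5_lc.Forcing
import Pool.Agent.Lib.MP_5205a5_lc.NRel

/-!
A Kumabe-Slaman forcing construction with levels: the key lemma relative to an oracle `B`.
-/

namespace Pool.Agent.Lib.MP_5205a5_lc

open Encodable Pool.Agent.Shared.Oracle Pool.Agent.Shared.Oracle.FP

/-- The tag of a position. -/
def tag (m : ℕ) : ℕ := (lab m).2.1.unpair.1

/-- The argument coded at a position. -/
def idx (m : ℕ) : ℕ := (lab m).2.1.unpair.2

theorem prim_tag : Primrec tag :=
  Primrec.fst.comp (Primrec.unpair.comp (Primrec.fst.comp (Primrec.snd.comp prim_lab)))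

theorem prim_idx : Primrec idx :=
  Primrec.snd.comp (Primrec.unpair.comp (Primrec.fst.comp (Primrec.snd.comp prim_lab)))

/-- `q` adds to `p` no position along a tagged member of `S` with the same tag. -/
def CleanT (p q : List Bool) (S : Set (ℕ × (ℕ → Bool))) : Prop :=
  ∀ m, p.length ≤ m → q[m]? = some true → ∀ X, (tag m, X) ∈ S → ¬ Along X m

/-- The tagged columns. -/
def colsT (U : ℕ → Bool) (gl : List ℕ) : Set (ℕ × (ℕ → Bool)) :=
  {x | ∃ t < gl.length, x = (gl.getD t 0, col U t)}

/-- A finite certificate for `CleanT`. -/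
def CleanFinT (p q : List Bool) (gl : List ℕ) (σ : List Bool) : Prop :=
  ∀ m < q.length, p.length ≤ m → q[m]? = some true → ∀ t < gl.length, gl.getD t 0 = tag m →
    ∃ i < (lab m).1.length, σ[Nat.pair t i]? = ((lab m).1[i]?).map not

theorem cleanT_iff (p q : List Bool) (U : ℕ → Bool) (gl : List ℕ) :
    CleanT p q (colsT U gl) ↔ ∃ l, CleanFinT p q gl (seg U l) := by
  constructor
  · intro h
    refine ⟨((Finset.range q.length).sup fun m => (Finset.range gl.length).sup fun j =>
      (Finset.range (lab m).1.length).sup fun i => Nat.pair j i) + 1, ?_⟩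
    intro m hm hp hq j hj ht
    obtain ⟨i, hi, e⟩ := not_along_iff.1 (h m hp hq (col U j) ⟨j, hj, by rw [ht]⟩)
    refine ⟨i, hi, ?_⟩
    rw [seg_getElem?, if_pos]
    · exact e
    · apply Nat.lt_succ_of_le
      refine le_trans ?_ (Finset.le_sup (f := fun m => (Finset.range gl.length).sup fun j =>
        (Finset.range (lab m).1.length).sup fun i => Nat.pair j i) (Finset.mem_range.2 hm))
      refine le_trans ?_ (Finset.le_sup (f := fun j =>
        (Finset.range (lab m).1.length).sup fun i => Nat.pair j i) (Finset.mem_range.2 hj))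
      exact Finset.le_sup (f := fun i => Nat.pair j i) (Finset.mem_range.2 hi)
  · rintro ⟨l, h⟩ m hp hq X ⟨j, hj, e0⟩
    obtain ⟨e1, rfl⟩ := Prod.mk.inj e0
    obtain ⟨i, hi, e⟩ := h m (List.getElem?_eq_some_iff.1 hq).1 hp hq j hj e1.symm
    refine not_along_iff.2 ⟨i, hi, ?_⟩
    rw [seg_getElem?] at e
    split_ifs at e with h1
    · exact e
    · rw [List.getElem?_eq_getElem hi] at e
      simp at e

theorem prim_cleanFinT (p : List Bool) (gl : List ℕ) :
    PrimrecPred fun r : List Bool × List Bool => CleanFinT p r.1 gl r.2 := by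
  have h1 : PrimrecPred fun r : ℕ × ℕ × ℕ × List Bool × List Bool =>
      r.2.2.2.2[Nat.pair r.2.1 r.1]? = ((lab r.2.2.1).1[r.1]?).map not :=
    Primrec.eq.comp
      (Primrec.list_getElem?.comp
        (Primrec.snd.comp (Primrec.snd.comp (Primrec.snd.comp Primrec.snd)))
        (Primrec₂.natPair.comp (Primrec.fst.comp Primrec.snd) Primrec.fst))
      ((Primrec.option_map₁ Primrec.not).comp (Primrec.list_getElem?.comp
        (Primrec.fst.comp (prim_lab.comp (Primrec.fst.comp (Primrec.snd.comp Primrec.snd))))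
        Primrec.fst))
  have h2 : PrimrecPred fun r : ℕ × ℕ × List Bool × List Bool =>
      ∃ i < (lab r.2.1).1.length, r.2.2.2[Nat.pair r.1 i]? = ((lab r.2.1).1[i]?).map not :=
    prim_exists_lt (R := fun i (r : ℕ × ℕ × List Bool × List Bool) =>
      r.2.2.2[Nat.pair r.1 i]? = ((lab r.2.1).1[i]?).map not)
      (Primrec.list_length.comp (Primrec.fst.comp (prim_lab.comp (Primrec.fst.comp Primrec.snd))))
      h1
  have h2' : PrimrecPred fun r : ℕ × ℕ × List Bool × List Bool => gl.getD r.1 0 = tag r.2.1 :=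
    Primrec.eq.comp ((Primrec.list_getD 0).comp (Primrec.const gl) Primrec.fst)
      (prim_tag.comp (Primrec.fst.comp Primrec.snd))
  have h3 : PrimrecPred fun r : ℕ × List Bool × List Bool => ∀ j < gl.length,
      gl.getD j 0 = tag r.1 →
      ∃ i < (lab r.1).1.length, r.2.2[Nat.pair j i]? = ((lab r.1).1[i]?).map not :=
    prim_forall_lt (R := fun j (r : ℕ × List Bool × List Bool) => gl.getD j 0 = tag r.1 →
      ∃ i < (lab r.1).1.length, r.2.2[Nat.pair j i]? = ((lab r.1).1[i]?).map not)
      (Primrec.const gl.length) (prim_imp h2' h2)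
  have h4 : PrimrecPred fun r : ℕ × List Bool × List Bool => p.length ≤ r.1 →
      r.2.1[r.1]? = some true → ∀ j < gl.length, gl.getD j 0 = tag r.1 →
      ∃ i < (lab r.1).1.length, r.2.2[Nat.pair j i]? = ((lab r.1).1[i]?).map not :=
    prim_imp (Primrec.nat_le.comp (Primrec.const _) Primrec.fst)
      (prim_imp (Primrec.eq.comp (Primrec.list_getElem?.comp (Primrec.fst.comp Primrec.snd)
        Primrec.fst) (Primrec.const _)) h3)
  exact prim_forall_lt (R := fun m (r : List Bool × List Bool) => p.length ≤ m →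
      r.1[m]? = some true → ∀ j < gl.length, gl.getD j 0 = tag m →
      ∃ i < (lab m).1.length, r.2[Nat.pair j i]? = ((lab m).1[i]?).map not)
      (Primrec.list_length.comp Primrec.fst) h4

theorem exists_colsT {T : Set (ℕ × (ℕ → Bool))} (hT : T.Finite) :
    ∃ U gl, colsT U gl = T := by
  obtain ⟨k, f, hf⟩ := hT.fin_param
  refine ⟨fun m => if h : (Nat.unpair m).1 < k then (f ⟨_, h⟩).2 (Nat.unpair m).2 else false,
    List.ofFn fun t => (f t).1, ?_⟩
  have key : ∀ t : Fin k, ((List.ofFn fun t => (f t).1).getD t 0, col (fun m =>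
      if h : (Nat.unpair m).1 < k then (f ⟨_, h⟩).2 (Nat.unpair m).2 else false) t) = f t := by
    intro t
    refine Prod.ext ?_ ?_
    · simp
    · funext m
      simp [col]
  rw [← hf.2]
  ext x
  constructor
  · rintro ⟨t, ht, rfl⟩
    rw [List.length_ofFn] at ht
    exact ⟨⟨t, ht⟩, (key ⟨t, ht⟩).symm⟩
  · rintro ⟨t, rfl⟩
    exact ⟨t, by simp, (key t).symm⟩

theorem colsT_finite (U : ℕ → Bool) (gl : List ℕ) : (colsT U gl).Finite :=
  ((Set.finite_lt_nat gl.length).image fun t => (gl.getD t 0, col U t)).subset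
    fun _ ⟨j, hj, e⟩ => ⟨j, hj, e.symm⟩

/-- The reals extending `σ` with no initial segment in `w`. -/
def cls (w : List Bool → Prop) (σ : List Bool) : Set (ℕ → Bool) :=
  {U | (∀ l, ¬ w (seg U l)) ∧ seg U σ.length = σ}

variable {B : ℕ → Bool}

theorem rein_empty {α : Type} [Primcodable α] {w : α → List Bool → Prop}
    (hw : REIn B fun x : α × List Bool => w x.1 x.2) (σ : List Bool) :
    REIn B fun a => ∀ U, U ∉ cls (w a) σ := by
  have h1 : REIn B fun x : α × List Bool =>
      w x.1 x.2 ∨ (σ.length ≤ x.2.length ∧ ¬ x.2.take σ.length = σ) :=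
    hw.or (rein_of_re (re_of_prim
      ((Primrec.nat_le.comp (Primrec.const _) (Primrec.list_length.comp Primrec.snd)).and
        (Primrec.eq.comp (Primrec.list_take.comp (Primrec.const _) Primrec.snd)
          (Primrec.const _)).not)))
  refine (rein_forall_real (w := fun a τ =>
    w a τ ∨ (σ.length ≤ τ.length ∧ ¬ τ.take σ.length = σ)) h1).of_eq fun a => forall_congr'
      fun U => ?_
  constructor
  · rintro ⟨l, h | ⟨h1, h2⟩⟩ ⟨hU, eU⟩
    · exact hU l h
    · rw [seg_length] at h1
      rw [seg_take U h1] at h2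
      exact h2 eU
  · intro h
    by_cases eU : seg U σ.length = σ
    · by_contra hcon
      push Not at hcon
      exact h ⟨fun l => (hcon l).1, eU⟩
    · exact ⟨σ.length, Or.inr ⟨by simp, by rwa [seg_take U le_rfl]⟩⟩

theorem singleton_cin {w : List Bool → Prop} (hw : REIn B w) (σ : List Bool) (j : ℕ)
    (C : ℕ → Bool) (hne : (cls w σ).Nonempty) (hall : ∀ U ∈ cls w σ, col U j = C) :
    ComputableIn {orc B} C := by
  have key : ∀ b : Bool, REIn B fun m => C m = b := by
    intro b
    have h1 : REIn B fun r : ℕ × List Bool => w r.2 ∨ r.2[Nat.pair j r.1]? = some b :=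
      (hw.comp Computable.snd).or (rein_of_re (re_of_prim
        (Primrec.eq.comp (Primrec.list_getElem?.comp Primrec.snd
          (Primrec₂.natPair.comp (Primrec.const _) Primrec.fst)) (Primrec.const _))))
    refine (rein_empty (w := fun m τ => w τ ∨ τ[Nat.pair j m]? = some b) h1 σ).of_eq fun m => ?_
    constructor
    · intro h
      obtain ⟨U, hU⟩ := hne
      by_contra hb
      refine h U ⟨fun l hl => ?_, hU.2⟩
      rcases hl with hl | hl
      · exact hU.1 l hl
      · rw [seg_getElem?] at hl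
        split_ifs at hl
        rw [← hall U hU] at hb
        exact hb (by simpa [col] using hl)
    · rintro h U ⟨hU, eU⟩
      refine hU (Nat.pair j m + 1) (Or.inr ?_)
      rw [seg_getElem?, if_pos (Nat.lt_succ_self _), ← h,
        ← hall U ⟨fun l hl => hU l (Or.inl hl), eU⟩]
      rfl
  exact cin_of_rein (key true) (key false)

theorem avoidT {w : List Bool → Prop} (hw : REIn B w) {σ : List Bool} (hne : (cls w σ).Nonempty)
    (E : ℕ → ℕ → Bool) (k : ℕ) (hE : ∀ t < k, ComputableIn {orc B} (E t) →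
      ∀ U, seg U σ.length = σ → col U t ≠ E t) :
    ∃ U ∈ cls w σ, ∀ t < k, col U t ≠ E t := by
  have key : ∀ j ≤ k, ∃ τ, (cls w τ).Nonempty ∧
      ∀ U ∈ cls w τ, U ∈ cls w σ ∧ ∀ t < j, col U t ≠ E t := by
    intro j hj
    induction j with
    | zero => exact ⟨σ, hne, fun U hU => ⟨hU, fun _ h => absurd h (Nat.not_lt_zero _)⟩⟩
    | succ j ih =>
      obtain ⟨τ, h1, h2⟩ := ih (by omega)
      by_cases c : ComputableIn {orc B} (E j)
      · refine ⟨τ, h1, fun U hU => ⟨(h2 U hU).1, fun t ht => ?_⟩⟩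
        rcases (Nat.lt_succ_iff.1 ht).lt_or_eq with h | rfl
        · exact (h2 U hU).2 t h
        · exact hE t (by omega) c U (h2 U hU).1.2
      · have h3 : ¬ ∀ U ∈ cls w τ, col U j = E j := fun h => c (singleton_cin hw τ _ _ h1 h)
        push Not at h3
        obtain ⟨U, hU, hne⟩ := h3
        obtain ⟨m, hm⟩ := Function.ne_iff.1 hne
        refine ⟨seg U (max τ.length (Nat.pair j m + 1)), ⟨U, hU.1, by simp⟩, ?_⟩
        rintro V ⟨hV, eV⟩
        simp only [seg_length] at eV
        have eV' := seg_congr.1 eV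
        have hVτ : V ∈ cls w τ := by
          refine ⟨hV, ?_⟩
          rw [← hU.2, seg_length]
          exact seg_congr.2 fun i hi => eV' i (by omega)
        refine ⟨(h2 V hVτ).1, fun t ht => ?_⟩
        rcases (Nat.lt_succ_iff.1 ht).lt_or_eq with h | rfl
        · exact (h2 V hVτ).2 t h
        · intro e
          apply hm
          rw [← e]
          exact (eV' _ (by omega)).symm
  obtain ⟨τ, ⟨U, hU⟩, h2⟩ := key k le_rfl
  exact ⟨U, (h2 U hU).1, (h2 U hU).2⟩

/-- The join of two reals. -/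
def jn (G B : ℕ → Bool) : ℕ → Bool := fun i => cond (decide (i % 2 = 0)) (G (i / 2)) (B (i / 2))

/-- A string extended by zeros. -/
def ext0 (q : List Bool) : ℕ → Bool := fun i => q.getD i false

/-- A functional applied to the join of a string with the oracle `B`. -/
def Fb (F : List Bool → ℕ →. ℕ) (B : ℕ → Bool) (q : List Bool) : ℕ →. ℕ :=
  F (seg (jn (ext0 q) B) q.length)

theorem seg_jn_congr {G G' B B' : ℕ → Bool} {k : ℕ} (h1 : ∀ i < k, G i = G' i)
    (h2 : ∀ i < k, B i = B' i) : seg (jn G B) k = seg (jn G' B') k :=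
  seg_congr.2 fun i hi => by rw [jn, jn, h1 _ (by omega), h2 _ (by omega)]

theorem ext0_seg (G : ℕ → Bool) {k i : ℕ} (h : i < k) : ext0 (seg G k) i = G i := by
  rw [ext0, List.getD_eq_getElem?_getD, seg_getElem?, if_pos h, Option.getD_some]

theorem Fb_seg (F : List Bool → ℕ →. ℕ) (G B : ℕ → Bool) (k : ℕ) :
    Fb F B (seg G k) = F (seg (jn G B) k) := by
  rw [Fb, seg_length, seg_jn_congr (fun i hi => ext0_seg G hi) fun _ _ => rfl]

theorem Fb_mono {F : List Bool → ℕ →. ℕ} (hF : Functional F) {q r : List Bool} (h : q <+: r)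
    {n v : ℕ} (hv : v ∈ Fb F B q n) : v ∈ Fb F B r n := by
  refine hF.mono ?_ hv
  rw [seg_jn_congr (G' := ext0 r) (B' := B) (fun i hi => ?_) fun _ _ => rfl]
  · exact seg_prefix _ h.length_le
  · rw [ext0, ext0, List.getD_eq_getElem?_getD, List.getD_eq_getElem?_getD,
      getElem?_of_prefix h hi]

theorem c_jn : Computable fun r : List Bool × List Bool =>
    seg (jn (ext0 r.1) (ext0 r.2)) r.1.length := by
  have a1 : Computable fun z : (List Bool × List Bool) × ℕ => z.2 / 2 := by fun_prop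
  have a2 : Computable fun z : (List Bool × List Bool) × ℕ => decide (z.2 % 2 = 0) :=
    c_decide_eq (c_mod Computable.snd (c_const 2)) (c_const 0)
  have a3 : Computable fun z : (List Bool × List Bool) × ℕ => jn (ext0 z.1.1) (ext0 z.1.2) z.2 :=
    c_cond a2 (c_getD (Computable.fst.comp Computable.fst) a1 (c_const false))
      (c_getD (Computable.snd.comp Computable.fst) a1 (c_const false))
  exact c_map (g := fun (r : List Bool × List Bool) i => jn (ext0 r.1) (ext0 r.2) i)
    (c_range (c_length Computable.fst)) a3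

theorem cin_jn_seg : ComputableIn {orc B} fun q : List Bool => seg (jn (ext0 q) B) q.length := by
  have hB : ComputableIn {orc B} B := cin_orc rfl
  have h1 : ComputableIn {orc B} fun q : List Bool => (q, seg B q.length) :=
    cin_pair ComputableIn.id (cin_comp (f := seg B) (cin_seg hB) Primrec.list_length.computableIn)
  have h2 := cin_comp c_jn.computableIn h1
  exact cin_of_eq h2 fun q => seg_jn_congr (fun _ _ => rfl) fun i hi => ext0_seg B hi

theorem rein_Fb {F : List Bool → ℕ →. ℕ} (hF : Functional F) :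
    REIn B fun z : (List Bool × ℕ) × ℕ => z.2 ∈ Fb F B z.1.1 z.1.2 := by
  have h2 : REPred fun z : (List Bool × ℕ) × ℕ => z.2 ∈ F z.1.1 z.1.2 :=
    re_mem (f := fun z : List Bool × ℕ => F z.1 z.2) hF.partrec
  have h3 : ComputableIn {orc B} fun z : (List Bool × ℕ) × ℕ =>
      seg (jn (ext0 z.1.1) B) z.1.1.length :=
    cin_comp (f := fun q : List Bool => seg (jn (ext0 q) B) q.length)
      (g := fun z : (List Bool × ℕ) × ℕ => z.1.1) cin_jn_seg
      (Primrec.fst.comp Primrec.fst).computableIn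
  have h4 : ComputableIn {orc B} fun z : (List Bool × ℕ) × ℕ =>
      ((seg (jn (ext0 z.1.1) B) z.1.1.length, z.1.2), z.2) :=
    cin_pair (cin_pair h3 (Primrec.snd.comp Primrec.fst).computableIn) ComputableIn.snd
  have h5 := rein_cin h4 h2
  exact h5

/-- The positions added with tag `j` along `C` carry the value of `Z`. -/
def Corr1 (C Z : ℕ → Bool) (j : ℕ) (p q : List Bool) : Prop :=
  ∀ m, p.length ≤ m → q[m]? = some true → tag m = j → Along C m → (lab m).2.2 = Z (idx m)

theorem rein_corr1 {C Z : ℕ → Bool} (hC : ComputableIn {orc B} C) (hZ : ComputableIn {orc B} Z)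
    (j : ℕ) (p : List Bool) : REIn B (Corr1 C Z j p) := by
  have h1 : PrimrecPred fun r : ℕ × List Bool × ℕ × List Bool × List Bool =>
      (lab r.1).1.length ≤ r.2.2.1 ∧ idx r.1 < r.2.2.1 ∧ (p.length ≤ r.1 →
        r.2.1[r.1]? = some true → tag r.1 = j →
        (lab r.1).1 = r.2.2.2.1.take (lab r.1).1.length →
        some (lab r.1).2.2 = r.2.2.2.2[idx r.1]?) := by
    have a1 : Primrec fun r : ℕ × List Bool × ℕ × List Bool × List Bool => (lab r.1).1 :=
      Primrec.fst.comp (prim_lab.comp Primrec.fst)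
    have a2 : Primrec fun r : ℕ × List Bool × ℕ × List Bool × List Bool => r.2.2.1 :=
      Primrec.fst.comp (Primrec.snd.comp Primrec.snd)
    have a3 : Primrec fun r : ℕ × List Bool × ℕ × List Bool × List Bool => r.2.2.2 :=
      Primrec.snd.comp (Primrec.snd.comp Primrec.snd)
    have a4 : Primrec fun r : ℕ × List Bool × ℕ × List Bool × List Bool => idx r.1 :=
      prim_idx.comp Primrec.fst
    exact (Primrec.nat_le.comp (Primrec.list_length.comp a1) a2).and
      ((Primrec.nat_lt.comp a4 a2).and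
      (prim_imp (Primrec.nat_le.comp (Primrec.const _) Primrec.fst)
      (prim_imp (Primrec.eq.comp (Primrec.list_getElem?.comp (Primrec.fst.comp Primrec.snd)
        Primrec.fst) (Primrec.const _))
      (prim_imp (Primrec.eq.comp (prim_tag.comp Primrec.fst) (Primrec.const _))
      (prim_imp (Primrec.eq.comp a1 (Primrec.list_take.comp (Primrec.list_length.comp a1)
        (Primrec.fst.comp a3)))
      (Primrec.eq.comp (Primrec.option_some.comp (Primrec.snd.comp (Primrec.snd.comp
        (prim_lab.comp Primrec.fst)))) (Primrec.list_getElem?.comp (Primrec.snd.comp a3) a4)))))))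
  have h2 : PrimrecPred fun r : List Bool × ℕ × List Bool × List Bool => ∀ m < r.1.length,
      (lab m).1.length ≤ r.2.1 ∧ idx m < r.2.1 ∧ (p.length ≤ m →
        r.1[m]? = some true → tag m = j → (lab m).1 = r.2.2.1.take (lab m).1.length →
        some (lab m).2.2 = r.2.2.2[idx m]?) :=
    prim_forall_lt (R := fun m (r : List Bool × ℕ × List Bool × List Bool) =>
      (lab m).1.length ≤ r.2.1 ∧ idx m < r.2.1 ∧ (p.length ≤ m →
        r.1[m]? = some true → tag m = j → (lab m).1 = r.2.2.1.take (lab m).1.length →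
        some (lab m).2.2 = r.2.2.2[idx m]?)) (Primrec.list_length.comp Primrec.fst) h1
  have h3 : ComputableIn {orc B} fun r : List Bool × ℕ => (r.1, r.2, seg C r.2, seg Z r.2) :=
    cin_pair ComputableIn.fst (cin_pair ComputableIn.snd
      (cin_pair (cin_comp (f := seg C) (cin_seg hC) ComputableIn.snd)
        (cin_comp (f := seg Z) (cin_seg hZ) ComputableIn.snd)))
  have h4 := rein_cin h3 (re_of_prim h2)
  refine (rein_exists (P := fun (q : List Bool) (L : ℕ) => ∀ m < q.length,
      (lab m).1.length ≤ L ∧ idx m < L ∧ (p.length ≤ m →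
        q[m]? = some true → tag m = j → (lab m).1 = (seg C L).take (lab m).1.length →
        some (lab m).2.2 = (seg Z L)[idx m]?)) h4).of_eq fun q => ?_
  constructor
  · rintro ⟨L, h⟩ m a1 a2 a3 a4
    obtain ⟨b1, b2, b3⟩ := h m (List.getElem?_eq_some_iff.1 a2).1
    have := b3 a1 a2 a3 (by rw [seg_take C b1]; exact a4)
    rw [seg_getElem?, if_pos b2] at this
    exact Option.some.inj this
  · intro h
    refine ⟨((Finset.range q.length).sup fun m => (lab m).1.length + idx m) + 1, fun m hm => ?_⟩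
    have b0 := Finset.le_sup (f := fun m => (lab m).1.length + idx m) (Finset.mem_range.2 hm)
    beta_reduce at b0
    refine ⟨by omega, by omega, fun a1 a2 a3 a4 => ?_⟩
    rw [seg_take C (by omega)] at a4
    rw [seg_getElem?, if_pos (by omega), h m a1 a2 a3 a4]

theorem rein_corr {C Z : ℕ → ℕ → Bool} (J : Finset ℕ)
    (hJ : ∀ j ∈ J, ComputableIn {orc B} (C j) ∧ ComputableIn {orc B} (Z j)) (p : List Bool) :
    REIn B fun q => ∀ j ∈ J, Corr1 (C j) (Z j) j p q := by
  induction J using Finset.induction_on with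
  | empty =>
    exact (rein_of_re (re_of_prim (prim_true (Primrec.const true)))).of_eq fun _ => by simp
  | insert j J _ ih =>
    have h1 := hJ j (Finset.mem_insert_self _ _)
    exact ((rein_corr1 h1.1 h1.2 j p).and (ih fun i hi =>
      hJ i (Finset.mem_insert_of_mem hi))).of_eq fun q => by simp

theorem key_lemmaT {C Z : ℕ → ℕ → Bool} {D : ℕ → Bool} (hD : ¬ ComputableIn {orc B} D)
    (hZ : ∀ j, ComputableIn {orc B} (C j) → ComputableIn {orc B} (Z j))
    {F : List Bool → ℕ →. ℕ} (hF : Functional F) (p : List Bool) {S : Set (ℕ × (ℕ → Bool))}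
    (hS : S.Finite) (hSC : ∀ x ∈ S, x.2 ≠ C x.1) (s : ℕ) :
    (∃ q, p <+: q ∧ CleanT p q S ∧ (∀ j ≤ s, Corr1 (C j) (Z j) j p q) ∧
      ∃ n v, v ∈ Fb F B q n ∧ v ≠ (D n).toNat) ∨
    ∃ n, ∃ S' : Set (ℕ × (ℕ → Bool)), S'.Finite ∧ (∀ x ∈ S', x.2 ≠ C x.1) ∧
      ∀ q, p <+: q → CleanT p q S' → (∀ j ≤ s, Corr1 (C j) (Z j) j p q) →
        ∀ v, v ∉ Fb F B q n := by
  classical
  rw [or_iff_not_imp_left]
  intro hA
  push Not at hA
  let J : Finset ℕ := (Finset.range (s + 1)).filter fun j => ComputableIn {orc B} (C j)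
  have hJ : ∀ j, j ∈ J ↔ j ≤ s ∧ ComputableIn {orc B} (C j) := fun j => by
    simp [J]
  have hT : (S ∪ (fun j => (j, C j)) '' {j | j ≤ s ∧ ¬ ComputableIn {orc B} (C j)}).Finite :=
    hS.union (((Set.finite_le_nat s).subset fun _ h => h.1).image _)
  obtain ⟨U₀, gl, hU₀⟩ := exists_colsT hT
  have hpos : ∀ t, ∃ i, t < gl.length → ComputableIn {orc B} (C (gl.getD t 0)) →
      U₀ (Nat.pair t i) ≠ C (gl.getD t 0) i := by
    intro t
    by_cases c : t < gl.length ∧ ComputableIn {orc B} (C (gl.getD t 0))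
    · have h1 : (gl.getD t 0, col U₀ t) ∈ colsT U₀ gl := ⟨t, c.1, rfl⟩
      rw [hU₀] at h1
      rcases h1 with h1 | ⟨j, hj, e⟩
      · obtain ⟨i, hi⟩ := Function.ne_iff.1 (hSC _ h1)
        exact ⟨i, fun _ _ => hi⟩
      · have e1 : j = gl.getD t 0 := (Prod.mk.inj e).1
        exact absurd (e1 ▸ c.2) hj.2
    · exact ⟨0, fun a b => absurd ⟨a, b⟩ c⟩
  choose pos hpos using hpos
  let σ := seg U₀ (((Finset.range gl.length).sup fun t => Nat.pair t (pos t)) + 1)
  have hσ : ∀ t < gl.length, ComputableIn {orc B} (C (gl.getD t 0)) →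
      ∀ U, seg U σ.length = σ → col U t ≠ C (gl.getD t 0) := by
    intro t ht c U eU e
    apply hpos t ht c
    rw [← e]
    simp only [σ, seg_length] at eU
    exact (seg_congr.1 eU _ (Nat.lt_succ_of_le (Finset.le_sup
      (f := fun t => Nat.pair t (pos t)) (Finset.mem_range.2 ht)))).symm
  let w : ℕ × Bool → List Bool → Prop := fun a τ => ∃ r : List Bool × ℕ,
    r.2 ∈ Fb F B r.1 a.1 ∧ ((r.1.take p.length = p ∧ ¬ r.2 = a.2.toNat ∧ CleanFinT p r.1 gl τ) ∧
      ∀ j ∈ J, Corr1 (C j) (Z j) j p r.1)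
  have hw : REIn B fun x : (ℕ × Bool) × List Bool => w x.1 x.2 := by
    refine rein_exists (P := fun (x : (ℕ × Bool) × List Bool) (r : List Bool × ℕ) =>
      r.2 ∈ Fb F B r.1 x.1.1 ∧ ((r.1.take p.length = p ∧ ¬ r.2 = x.1.2.toNat ∧
        CleanFinT p r.1 gl x.2) ∧ ∀ j ∈ J, Corr1 (C j) (Z j) j p r.1))
      (REIn.and ?_ (REIn.and (rein_of_re (re_of_prim ?_)) ?_))
    · have h1 : Primrec fun z : ((ℕ × Bool) × List Bool) × (List Bool × ℕ) =>
          ((z.2.1, z.1.1.1), z.2.2) :=
        ((Primrec.fst.comp Primrec.snd).pair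
          (Primrec.fst.comp (Primrec.fst.comp Primrec.fst))).pair (Primrec.snd.comp Primrec.snd)
      have h3 := (rein_Fb (B := B) hF).comp h1.to_comp
      exact h3
    · have h1 : PrimrecPred fun z : ((ℕ × Bool) × List Bool) × (List Bool × ℕ) =>
          z.2.1.take p.length = p :=
        Primrec.eq.comp (Primrec.list_take.comp (Primrec.const _)
          (Primrec.fst.comp Primrec.snd)) (Primrec.const _)
      have h2 : PrimrecPred fun z : ((ℕ × Bool) × List Bool) × (List Bool × ℕ) =>
          z.2.2 = z.1.1.2.toNat :=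
        Primrec.eq.comp (Primrec.snd.comp Primrec.snd) ((Primrec.dom_bool Bool.toNat).comp
          (Primrec.snd.comp (Primrec.fst.comp Primrec.fst)))
      have h3 : Primrec fun z : ((ℕ × Bool) × List Bool) × (List Bool × ℕ) => (z.2.1, z.1.2) :=
        (Primrec.fst.comp Primrec.snd).pair (Primrec.snd.comp Primrec.fst)
      have h4 : PrimrecPred fun z : ((ℕ × Bool) × List Bool) × (List Bool × ℕ) =>
          CleanFinT p z.2.1 gl z.1.2 :=
        PrimrecPred.comp (p := fun r : List Bool × List Bool => CleanFinT p r.1 gl r.2)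
          (prim_cleanFinT p gl) h3
      exact h1.and (h2.not.and h4)
    · have h1 := (rein_corr (B := B) (C := C) (Z := Z) J (fun j hj =>
        ⟨((hJ j).1 hj).2, hZ j ((hJ j).1 hj).2⟩) p).comp
        (f := fun z : ((ℕ × Bool) × List Bool) × (List Bool × ℕ) => z.2.1)
        (Computable.fst.comp Computable.snd)
      exact h1
  have hw_iff : ∀ a U, (∀ l, ¬ w a (seg U l)) ↔ ∀ q, p <+: q → CleanT p q (colsT U gl) →
      (∀ j ∈ J, Corr1 (C j) (Z j) j p q) → ∀ v ∈ Fb F B q a.1, v = a.2.toNat := by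
    intro a U
    constructor
    · intro h q hq hc hr v hv
      obtain ⟨l, hl⟩ := (cleanT_iff p q U gl).1 hc
      by_contra hne
      exact h l ⟨(q, v), hv, ⟨(List.prefix_iff_eq_take.1 hq).symm, hne, hl⟩, hr⟩
    · rintro h l ⟨⟨q, v⟩, hv, ⟨hq, hne, hl⟩, hr⟩
      exact hne (h q (List.prefix_iff_eq_take.2 hq.symm) ((cleanT_iff p q U gl).2 ⟨l, hl⟩) hr v hv)
  have h0 : ∀ n, U₀ ∈ cls (w (n, D n)) σ := fun n => by
    refine ⟨(hw_iff _ _).2 fun q hq hc hr v hv => ?_, by simp [σ]⟩
    rw [hU₀] at hc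
    refine hA q hq (fun m h1 h2 X hX => hc m h1 h2 X (Or.inl hX)) (fun j hj => ?_) n v hv
    by_cases c : ComputableIn {orc B} (C j)
    · exact hr j ((hJ j).2 ⟨hj, c⟩)
    · intro m a1 a2 a3 a4
      exact absurd a4 (hc m a1 a2 _ (Or.inr ⟨j, ⟨hj, c⟩, by rw [a3]⟩))
  have h1 : ∃ n, (cls (w (n, !D n)) σ).Nonempty := by
    by_contra hcon
    push Not at hcon
    apply hD
    have key : ∀ b : Bool, REIn B fun n => D n = b := by
      intro b
      refine ((rein_empty hw σ).comp (f := fun n : ℕ => (n, !b))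
        (Computable.id.pair (Computable.const _))).of_eq fun n => ?_
      constructor
      · intro h
        by_contra hne
        have : (!b) = D n := by cases b <;> cases hd : D n <;> simp_all
        rw [this] at h
        exact h U₀ (h0 n)
      · rintro rfl U
        rw [hcon n]
        exact Set.notMem_empty U
    exact cin_of_rein (key true) (key false)
  obtain ⟨n, h1⟩ := h1
  have hwa : ∀ a, REIn B (w a) := fun a =>
    hw.comp (f := fun τ : List Bool => (a, τ)) ((Computable.const a).pair Computable.id)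
  obtain ⟨U₁, hU₁, a₁⟩ := avoidT (hwa _) ⟨U₀, h0 n⟩ (fun t => C (gl.getD t 0)) gl.length hσ
  obtain ⟨U₂, hU₂, a₂⟩ := avoidT (hwa _) h1 (fun t => C (gl.getD t 0)) gl.length hσ
  refine ⟨n, colsT U₁ gl ∪ colsT U₂ gl, (colsT_finite _ _).union (colsT_finite _ _), ?_, ?_⟩
  · rintro x (⟨t, ht, rfl⟩ | ⟨t, ht, rfl⟩)
    · exact a₁ t ht
    · exact a₂ t ht
  · intro q hq hc hr v hv
    have hr' : ∀ j ∈ J, Corr1 (C j) (Z j) j p q := fun j hj => hr j ((hJ j).1 hj).1
    have e₁ := (hw_iff _ _).1 hU₁.1 q hq (fun m h1 h2 X hX => hc m h1 h2 X (Or.inl hX)) hr' v hv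
    have e₂ := (hw_iff _ _).1 hU₂.1 q hq (fun m h1 h2 X hX => hc m h1 h2 X (Or.inr hX)) hr' v hv
    rw [e₁] at e₂
    cases hd : D n <;> simp [hd] at e₂

end Pool.Agent.Lib.MP_5205a5_lc
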