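import Pool.Agent.Lib.MP_5205a5_lc.NForce

/-!
The levelled construction: for countably many `C j, Z j` and `B e, D e` such that `B e` does not
compute `D e`, and `B e` computes `Z j` whenever it computes `C j`, there is `G` such that `G`
with `C j` computes `Z j`, and `G` with `B e` does not compute `D e`.
-/

namespace Pool.Agent.Lib.MP_5205a5_lc

open Encodable Pool.Agent.Shared.Oracle

/-- One stage of the construction. -/
structure StepT (C Z : ℕ → ℕ → Bool) (B D : ℕ → Bool) (F : List Bool → ℕ →. ℕ) (s : ℕ)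
    (x y : List Bool × Set (ℕ × (ℕ → Bool))) : Prop where
  pre : x.1 <+: y.1
  sub : x.2 ⊆ y.2
  clean : CleanT x.1 y.1 y.2
  correct : ∀ j ≤ s, Corr1 (C j) (Z j) j x.1 y.1
  coded : ∃ m, x.1.length ≤ m ∧ y.1[m]? = some true ∧ Along (C (Nat.unpair s).1) m ∧
    (lab m).2.1 = s
  diag : (∃ n v, v ∈ Fb F B y.1 n ∧ v ≠ (D n).toNat) ∨
    ∃ n, ∀ q, x.1 <+: q → CleanT x.1 q y.2 → (∀ j ≤ s, Corr1 (C j) (Z j) j x.1 q) →
      ∀ v, v ∉ Fb F B q n

theorem coding_lemmaT {C Z : ℕ → ℕ → Bool} (q : List Bool) {S : Set (ℕ × (ℕ → Bool))}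
    (hS : S.Finite) (hSC : ∀ x ∈ S, x.2 ≠ C x.1) (s : ℕ) :
    ∃ r m, q <+: r ∧ q.length ≤ m ∧ r[m]? = some true ∧ Along (C (Nat.unpair s).1) m ∧
      (lab m).2.1 = s ∧ CleanT q r S ∧ ∀ j, Corr1 (C j) (Z j) j q r := by
  have hS' : {X | ((Nat.unpair s).1, X) ∈ S}.Finite :=
    (hS.image Prod.snd).subset fun X hX => ⟨_, hX, rfl⟩
  obtain ⟨r, m, h1, h2, h3, h4, h5, h6, h7⟩ := coding_lemma q hS' (C := C (Nat.unpair s).1)
    (fun X hX => hSC _ hX) s (Z (Nat.unpair s).1 (Nat.unpair s).2)
  have t1 : tag m = (Nat.unpair s).1 := by rw [tag, h6]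
  have t2 : idx m = (Nat.unpair s).2 := by rw [idx, h6]
  refine ⟨r, m, h1, h2, h3, h5, by rw [h6], ?_, ?_⟩
  · intro m' a1 a2 X hX
    rw [h4 m' a1 a2] at hX ⊢
    rw [t1] at hX
    exact h7 X hX
  · intro j m' a1 a2 a3 _
    rw [h4 m' a1 a2] at a3 ⊢
    rw [h6, t2, ← a3, t1]

theorem exists_stepT {C Z : ℕ → ℕ → Bool} {B D : ℕ → Bool} (hD : ¬ ComputableIn {orc B} D)
    (hZ : ∀ j, ComputableIn {orc B} (C j) → ComputableIn {orc B} (Z j))
    {F : List Bool → ℕ →. ℕ} (hF : Functional F) (s : ℕ)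
    (x : List Bool × Set (ℕ × (ℕ → Bool))) (hx : x.2.Finite ∧ ∀ z ∈ x.2, z.2 ≠ C z.1) :
    ∃ y : List Bool × Set (ℕ × (ℕ → Bool)), (y.2.Finite ∧ ∀ z ∈ y.2, z.2 ≠ C z.1) ∧
      StepT C Z B D F s x y := by
  obtain ⟨p, S⟩ := x
  obtain ⟨hS, hSC⟩ := hx
  rcases key_lemmaT hD hZ hF p hS hSC s with
    ⟨q, hq, hc, hr, n, v, hv, hne⟩ | ⟨n, S', hS', hS'C, h⟩
  · obtain ⟨r, m, h1, h2, h3, h4, h5, h6, h7⟩ := coding_lemmaT (Z := Z) q hS hSC s
    refine ⟨(r, S), ⟨hS, hSC⟩, hq.trans h1, subset_rfl, ?_, ?_,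
      ⟨m, hq.length_le.trans h2, h3, h4, h5⟩, Or.inl ⟨n, v, Fb_mono hF h1 hv, hne⟩⟩
    · intro m' a1 a2
      rcases lt_or_ge m' q.length with h | h
      · rw [getElem?_of_prefix h1 h] at a2
        exact hc m' a1 a2
      · exact h6 m' h a2
    · intro j hj m' a1 a2
      rcases lt_or_ge m' q.length with h | h
      · rw [getElem?_of_prefix h1 h] at a2
        exact hr j hj m' a1 a2
      · exact h7 j m' h a2
  · have hS2 : ∀ z ∈ S ∪ S', z.2 ≠ C z.1 := by
      rintro z (hz | hz)
      · exact hSC z hz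
      · exact hS'C z hz
    obtain ⟨r, m, h1, h2, h3, h4, h5, h6, h7⟩ := coding_lemmaT (Z := Z) p (hS.union hS') hS2 s
    exact ⟨(r, S ∪ S'), ⟨hS.union hS', hS2⟩, h1, Set.subset_union_left, h6, fun j _ => h7 j,
      ⟨m, h2, h3, h4, h5⟩,
      Or.inr ⟨n, fun q hq hc => h q hq fun m a1 a2 X hX => hc m a1 a2 X (Or.inr hX)⟩⟩

theorem cin_jn_left (G B : ℕ → Bool) : ComputableIn {orc (jn G B)} G :=
  cin_of_eq (cin_comp (f := jn G B) (cin_orc rfl) Primrec.nat_double.computableIn) fun n => by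
    simp [jn]

theorem cin_jn_right (G B : ℕ → Bool) : ComputableIn {orc (jn G B)} B :=
  cin_of_eq (cin_comp (f := jn G B) (cin_orc rfl) Primrec.nat_double_succ.computableIn) fun n => by
    have : (2 * n + 1) / 2 = n := by omega
    simp [jn, this]

theorem exists_genericT {C Z B D : ℕ → ℕ → Bool} (hD : ∀ e, ¬ ComputableIn {orc (B e)} (D e))
    (hZ : ∀ e j, ComputableIn {orc (B e)} (C j) → ComputableIn {orc (B e)} (Z j)) :
    ∃ G : ℕ → Bool, (∀ e, ¬ ComputableIn {orc G, orc (B e)} (D e)) ∧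
      ∀ j, ComputableIn {orc G, orc (C j)} (Z j) := by
  obtain ⟨F, hF, hFall⟩ := exists_enum_functional
  let St := {x : List Bool × Set (ℕ × (ℕ → Bool)) // x.2.Finite ∧ ∀ z ∈ x.2, z.2 ≠ C z.1}
  have hstep : ∀ (s : ℕ) (x : St), ∃ y : St,
      StepT C Z (B s.unpair.1) (D s.unpair.1) (F s.unpair.2) s x.1 y.1 := fun s x => by
    obtain ⟨y, hy, h⟩ := exists_stepT (hD s.unpair.1) (hZ s.unpair.1) (hF s.unpair.2) s x.1 x.2
    exact ⟨⟨y, hy⟩, h⟩
  choose step hstep using hstep
  let sq : ℕ → St := fun s =>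
    Nat.rec ⟨([], ∅), Set.finite_empty, fun _ h => h.elim⟩ (fun s x => step s x) s
  let p : ℕ → List Bool := fun s => (sq s).1.1
  let S : ℕ → Set (ℕ × (ℕ → Bool)) := fun s => (sq s).1.2
  have hs : ∀ s, StepT C Z (B s.unpair.1) (D s.unpair.1) (F s.unpair.2) s (p s, S s)
      (p (s + 1), S (s + 1)) := fun s => hstep s (sq s)
  have hp0 : p 0 = [] := rfl
  have hpre : ∀ {s t}, s ≤ t → p s <+: p t := by
    intro s t h
    induction t, h using Nat.le_induction with
    | base => exact List.prefix_refl _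
    | succ t _ ih => exact ih.trans (hs t).pre
  have hsub : ∀ {s t}, s ≤ t → S s ⊆ S t := by
    intro s t h
    induction t, h using Nat.le_induction with
    | base => exact subset_rfl
    | succ t _ ih => exact ih.trans (hs t).sub
  have hlen : ∀ s, s ≤ (p s).length := by
    intro s
    induction s with
    | zero => exact Nat.zero_le _
    | succ s ih =>
      obtain ⟨m, h1, h2, -⟩ := (hs s).coded
      have := (List.getElem?_eq_some_iff.1 h2).1
      simp only at h1 this
      omega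
  let G : ℕ → Bool := fun m => ((p (m + 1))[m]?).getD false
  have hG : ∀ s m, m < (p s).length → (p s)[m]? = some (G m) := by
    intro s m hm
    have h1 : m < (p (m + 1)).length := hlen (m + 1)
    have h2 := getElem?_of_prefix (hpre (le_max_left s (m + 1))) hm
    have h3 := getElem?_of_prefix (hpre (le_max_right s (m + 1))) h1
    rw [← h2, h3]
    simp only [G]
    rw [List.getElem?_eq_getElem h1]
    rfl
  have hseg : ∀ s, seg G (p s).length = p s := by
    intro s
    apply List.ext_getElem?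
    intro m
    rw [seg_getElem?]
    split_ifs with h
    · exact (hG s m h).symm
    · exact (List.getElem?_eq_none (not_lt.1 h)).symm
  have hstage : ∀ s m, (p s).length ≤ m → G m = true →
      ∃ t, s ≤ t ∧ (p t).length ≤ m ∧ (p (t + 1))[m]? = some true := by
    intro s m hm hGm
    have hex : ∃ t, m < (p (t + 1)).length := ⟨m, hlen (m + 1)⟩
    refine ⟨Nat.find hex, ?_, ?_, ?_⟩
    · by_contra hlt
      have h1 := (hpre (show Nat.find hex + 1 ≤ s by omega)).length_le
      have h2 := Nat.find_spec hex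
      omega
    · rcases h : Nat.find hex with - | t
      · simp [hp0]
      · exact not_lt.1 (Nat.find_min hex (show t < Nat.find hex by omega))
    · rw [hG (Nat.find hex + 1) m (Nat.find_spec hex), hGm]
  refine ⟨G, fun e h => ?_, fun i => ?_⟩
  · have h' : ComputableIn {orc (jn G (B e))} (D e) := by
      refine cin_subst h ?_
      rintro _ (rfl | rfl)
      · exact orc_iff.2 (cin_jn_left _ _)
      · exact orc_iff.2 (cin_jn_right _ _)
    obtain ⟨F', hF', ee⟩ := use_principle (RecursiveIn.iff_nat.1 (orc_iff.2 h'))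
    obtain ⟨c, rfl⟩ := hFall F' hF'
    have hd := (hs (Nat.pair e c)).diag
    simp only [Nat.unpair_pair] at hd
    generalize Nat.pair e c = s at hd
    rcases hd with ⟨n, v, hv, hne⟩ | ⟨n, h⟩
    · apply hne
      rw [← hseg (s + 1), Fb_seg] at hv
      have : v ∈ orc (D e) n := (ee n v).2 ⟨_, hv⟩
      simpa [orc] using this
    · obtain ⟨k, hk⟩ := (ee n (D e n).toNat).1 (by simp [orc])
      refine h (seg G (max k (p s).length)) ?_ ?_ ?_ (D e n).toNat ?_
      · conv_lhs => rw [← hseg s]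
        exact seg_prefix G (le_max_right _ _)
      · intro m h1 h2 X hX
        rw [seg_getElem?] at h2
        split_ifs at h2
        obtain ⟨t, ht, a1, a2⟩ := hstage s m h1 (by simpa using h2)
        exact (hs t).clean m a1 a2 X (hsub (show s + 1 ≤ t + 1 by omega) hX)
      · intro j hj m h1 h2
        rw [seg_getElem?] at h2
        split_ifs at h2
        obtain ⟨t, ht, a1, a2⟩ := hstage s m h1 (by simpa using h2)
        exact (hs t).correct j (hj.trans ht) m a1 a2
      · rw [Fb_seg]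
        exact hF'.mono (seg_prefix _ (le_max_left _ _)) hk
  · classical
    let P : ℕ → ℕ → Bool := fun n m => G m && decide ((p i).length ≤ m ∧
      (lab m).1 = seg (C i) (lab m).1.length ∧ (lab m).2.1 = Nat.pair i n)
    have hex : ∀ n, ∃ m, P n m = true := by
      intro n
      obtain ⟨m, h1, h2, h3, h4⟩ := (hs (Nat.pair i n)).coded
      simp only [Nat.unpair_pair] at h3
      refine ⟨m, ?_⟩
      have h5 := hG (Nat.pair i n + 1) m (List.getElem?_eq_some_iff.1 h2).1
      rw [h2] at h5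
      simp only [P, Bool.and_eq_true, decide_eq_true_eq]
      exact ⟨by simpa using h5.symm,
        (hpre (Nat.left_le_pair i n)).length_le.trans h1, h3, h4⟩
    have hGin : ComputableIn {orc G, orc (C i)} G := cin_orc (by simp)
    have hCin : ComputableIn {orc G, orc (C i)} (C i) := cin_orc (by simp)
    have hQ : PrimrecPred fun r : (ℕ × ℕ) × List Bool =>
        (p i).length ≤ r.1.2 ∧ (lab r.1.2).1 = r.2 ∧ (lab r.1.2).2.1 = Nat.pair i r.1.1 :=
      (Primrec.nat_le.comp (Primrec.const _) (Primrec.snd.comp Primrec.fst)).and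
        ((Primrec.eq.comp (Primrec.fst.comp (prim_lab.comp (Primrec.snd.comp Primrec.fst)))
          Primrec.snd).and
        (Primrec.eq.comp (Primrec.fst.comp (Primrec.snd.comp
          (prim_lab.comp (Primrec.snd.comp Primrec.fst))))
          (Primrec₂.natPair.comp (Primrec.const i) (Primrec.fst.comp Primrec.fst))))
    have hP1 : ComputableIn {orc G, orc (C i)} fun r : ℕ × ℕ => G r.2 :=
      cin_comp (f := G) (g := Prod.snd) hGin ComputableIn.snd
    have hP2 : Primrec fun r : ℕ × ℕ => (lab r.2).1.length :=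
      Primrec.list_length.comp (Primrec.fst.comp (prim_lab.comp Primrec.snd))
    have hP3 : ComputableIn {orc G, orc (C i)} fun r : ℕ × ℕ => seg (C i) (lab r.2).1.length :=
      cin_comp (f := seg (C i)) (cin_seg hCin) hP2.computableIn
    have hP4 : ComputableIn {orc G, orc (C i)} fun r : ℕ × ℕ => decide ((p i).length ≤ r.2 ∧
        (lab r.2).1 = seg (C i) (lab r.2).1.length ∧ (lab r.2).2.1 = Nat.pair i r.1) :=
      cin_comp (g := fun r : ℕ × ℕ => (r, seg (C i) (lab r.2).1.length))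
        hQ.decide.computableIn (cin_pair ComputableIn.id hP3)
    have hP : ComputableIn₂ {orc G, orc (C i)} P :=
      cin_comp₂ (f := and) Primrec.and.computableIn₂ hP1 hP4
    have hL : Primrec fun m : ℕ => (lab m).2.2 := Primrec.snd.comp (Primrec.snd.comp prim_lab)
    refine cin_of_eq (cin_comp (f := fun m : ℕ => (lab m).2.2) hL.computableIn
      (cin_find hP hex)) fun n => ?_
    have h1 := Nat.find_spec (hex n)
    generalize Nat.find (hex n) = m at h1 ⊢
    simp only [P, Bool.and_eq_true, decide_eq_true_eq] at h1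
    obtain ⟨a1, a2, a3, a4⟩ := h1
    obtain ⟨t, ht, b1, b2⟩ := hstage i _ a2 a1
    have := (hs t).correct i ht m b1 b2 (by simp [tag, a4]) a3
    rw [this, idx, a4, Nat.unpair_pair]

end Pool.Agent.Lib.MP_5205a5_lc
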