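import Pool.Agent.Lib.MP_5205a5_lc.Main
import Pool.Agent.Lib.MP_5205a5_lc.NChain
import Pool.Agent.Lib.MP_5205a5_lc.NCopy
import Pool.Agent.Lib.MP_5205a5_lc.NGeneric

/-!
Degree spectra of every finite positive size on the finite-cofinite algebra.
-/

namespace Pool.Agent.Lib.MP_5205a5_lc

open Pool.Agent.Shared.Oracle FM

theorem cin_trans {O : Set (ℕ →. ℕ)} {X Y : ℕ → Bool} (h1 : ComputableIn {orc Y} X)
    (h2 : ComputableIn O Y) : ComputableIn O X := by
  refine cin_subst h1 ?_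
  rintro _ rfl
  exact orc_iff.2 h2

theorem cin_trans₂ {O : Set (ℕ →. ℕ)} {X Y Z : ℕ → Bool} (h1 : ComputableIn {orc Y, orc Z} X)
    (h2 : ComputableIn O Y) (h3 : ComputableIn O Z) : ComputableIn O X := by
  refine cin_subst h1 ?_
  rintro _ (rfl | rfl)
  · exact orc_iff.2 h2
  · exact orc_iff.2 h3

theorem cin_jn {O : Set (ℕ →. ℕ)} {G B : ℕ → Bool} (h1 : ComputableIn O G)
    (h2 : ComputableIn O B) : ComputableIn O (jn G B) := by
  have a1 : Primrec fun i : ℕ => i / 2 := Primrec.nat_div.comp Primrec.id (.const 2)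
  have a2 : Primrec fun i : ℕ => decide (i % 2 = 0) :=
    (Primrec.eq.comp (Primrec.nat_mod.comp Primrec.id (.const 2)) (.const 0)).decide
  exact cin_cond a2.computableIn (cin_comp (f := G) h1 a1.computableIn)
    (cin_comp (f := B) h2 a1.computableIn)

theorem exists_not_cin (T : ℕ → Bool) : ∃ D : ℕ → Bool, ¬ ComputableIn {orc T} D := by
  obtain ⟨F, -, hFall⟩ := exists_enum_functional
  refine ⟨ind {n | ¬ ∃ k, 1 ∈ F n (seg T k) n}, fun h => ?_⟩
  obtain ⟨F', hF', e⟩ := use_principle (RecursiveIn.iff_nat.1 (orc_iff.2 h))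
  obtain ⟨s, rfl⟩ := hFall F' hF'
  have h1 := e s 1
  have h2 : ind {n | ¬ ∃ k, 1 ∈ F n (seg T k) n} s = true ↔ ¬ ∃ k, 1 ∈ F s (seg T k) s := ind_iff
  rw [← h1] at h2
  generalize ind {n | ¬ ∃ k, 1 ∈ F n (seg T k) n} = X at h2
  cases hx : X s <;> simp [orc, hx] at h2

theorem ind_setOf (X : ℕ → Bool) : ind {m | X m = true} = X := by
  funext m
  rw [Bool.eq_iff_iff, ind_iff]
  rfl

theorem finite_spectrum (n : ℕ) : ∃ G : ℕ → Bool, (DgSp (Rel G)).ncard = n + 1 := by
  classical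
  have self : ∀ X : ℕ → Bool, ComputableIn {orc X} X := fun X => cin_orc rfl
  choose μ hμ hμ1 hμ2 using fun i => exists_copy_re (V_re i)
  obtain ⟨C, hC⟩ := countable_atoms.exists_eq_range ⟨_, μ 0, hμ 0, rfl⟩
  have hC2 : ∀ ν : FC → ℕ, IsComputableCopy ν → ∃ j, C j = ind (ν '' atoms) := fun ν h1 => by
    have : ind (ν '' atoms) ∈ Set.range C := by
      rw [← hC]; exact ⟨ν, h1, rfl⟩
    exact this
  let T : ℕ → Bool := fun m => C m.unpair.1 m.unpair.2
  have hT : ∀ j, ComputableIn {orc T} (C j) := fun j =>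
    cin_of_eq (cin_comp (f := T) (self T)
      (Primrec₂.natPair.comp (Primrec.const j) Primrec.id).computableIn) fun m => by simp [T]
  have hVT : ∀ i, ComputableIn {orc T} (V i) := fun i => by
    obtain ⟨j, hj⟩ := hC2 _ (hμ i)
    exact hμ2 i _ (hj ▸ hT j)
  let A : ℕ → ℕ → Bool := fun i => if i < n then V i else T
  have hA1 : ∀ {i}, i < n → A i = V i := fun h => if_pos h
  have hA2 : ∀ {i}, n ≤ i → A i = T := fun h => if_neg (not_lt.2 h)
  have hVA : ∀ i, ComputableIn {orc (A i)} (V i) := fun i => by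
    rcases lt_or_ge i n with h | h
    · rw [hA1 h]; exact self _
    · rw [hA2 h]; exact hVT i
  have hmono : ∀ {i k}, i ≤ k → ComputableIn {orc (A k)} (A i) := by
    intro i k hik
    rcases lt_or_ge i n with h | h
    · rw [hA1 h]; exact V_le hik (hVA k)
    · rw [hA2 h, hA2 (h.trans hik)]; exact self _
  have hex : ∀ j, ∃ i, ComputableIn {orc (A i)} (C j) := fun j =>
    ⟨n, by rw [hA2 le_rfl]; exact hT j⟩
  have hlev : ∀ j, Nat.find (hex j) ≤ n := fun j =>
    Nat.find_min' (hex j) (by rw [hA2 le_rfl]; exact hT j)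
  obtain ⟨D₀, hD₀⟩ := exists_not_cin T
  obtain ⟨G, hG1, hG2⟩ := exists_genericT (C := C) (Z := fun j => A (Nat.find (hex j))) (B := A)
    (D := fun e => if e < n then V (e + 1) else D₀)
    (fun e => by
      rcases lt_or_ge e n with h | h
      · rw [hA1 h, if_pos h]; exact V_not_le e
      · rw [hA2 h, if_neg (not_lt.2 h)]; exact hD₀)
    (fun e j h => hmono (Nat.find_min' (hex j) h))
  let d : ℕ → TuringDegree := fun i => degree {m | jn G (A i) m = true}
  have hdeg : ∀ (ν : FC → ℕ) j, IsComputableCopy ν → C j = ind (ν '' atoms) →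
      degree (ν '' Rel G) = d (Nat.find (hex j)) := by
    intro ν j h1 h2
    refine degree_eq_iff.2 ?_
    rw [ind_setOf]
    refine ⟨rel_le h1 (h2 ▸ cin_trans (Nat.find_spec (hex j)) (cin_jn_right _ _))
      (cin_jn_left _ _), cin_jn (code_le h1 (self _)) ?_⟩
    exact cin_trans₂ (hG2 j) (code_le h1 (self _)) (h2 ▸ atoms_le h1 (self _))
  have hset : DgSp (Rel G) = d '' Set.Iic n := by
    ext x
    constructor
    · rintro ⟨ν, hν, rfl⟩
      obtain ⟨j, hj⟩ := hC2 ν hν
      exact ⟨_, hlev j, (hdeg ν j hν hj).symm⟩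
    · rintro ⟨i, hi, rfl⟩
      obtain ⟨j, hj⟩ := hC2 _ (hμ i)
      refine ⟨μ i, hμ i, ?_⟩
      rw [hdeg _ j (hμ i) hj]
      congr 1
      refine le_antisymm ?_ (Nat.find_min' (hex j) (hj ▸ hμ1 i _ (hVA i)))
      by_contra hlt
      have h1 : Nat.find (hex j) + 1 ≤ i := not_le.1 hlt
      have h2 := Nat.find_spec (hex j)
      generalize Nat.find (hex j) = l at h1 h2
      rw [hA1 (show l < n from lt_of_lt_of_le h1 hi), hj] at h2
      exact V_not_le _ (V_le h1 (hμ2 i _ h2))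
  have hinj : ∀ i k, i < k → k ≤ n → d i ≠ d k := by
    intro i k hik hk e
    have h1 := (degree_eq_iff.1 e).2
    rw [ind_setOf, ind_setOf] at h1
    have h2 := hG1 i
    rw [if_pos (show i < n by omega)] at h2
    refine h2 (V_le (show i + 1 ≤ k by omega) (cin_trans (hVA k) (cin_trans (cin_jn_right G _)
      (cin_trans h1 (cin_jn (cin_orc (by simp)) (cin_orc (by simp)))))))
  refine ⟨G, ?_⟩
  rw [hset, Set.InjOn.ncard_image, ← Finset.coe_Iic, Set.ncard_coe_finset, Nat.card_Iic]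
  intro i hi k hk e
  rcases lt_trichotomy i k with h | h | h
  · exact absurd e (hinj i k h hk)
  · exact h
  · exact absurd e.symm (hinj k i h hi)

end Pool.Agent.Lib.MP_5205a5_lc
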